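import Mathlib
import Pool.Agent.Helper55.BLE.Defs

/-!
Graphs of heights with a positive eigenvector for an arbitrary positive eigenvalue.  This is
`Helper55/BLE/Defs.lean` without the condition that the eigenvalue is at least two.
-/

set_option autoImplicit false

namespace Pool.Agent.Helper55.BLE.W

open Pool.Agent.Helper70.BLB
open Pool.Agent.Helper55.BLD

variable {A B : Type} [DecidableEq A]

/-- The properties of the graph of heights: `lv b` are leaves at `c`, vertex heights (`vt`) have
at most two neighbours, `g` is a vertex height with neighbours `c` and `f`. -/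
structure HGood (nb : A → Finset A) (S : A → ℝ) (δ : ℝ) (vt : A → Prop) (lv : B → A)
    (c g f : A) : Prop extends Eig nb S δ where
  hδ : 0 < δ
  nlv : ∀ b, nb (lv b) = {c}
  linj : Function.Injective lv
  vlv : ∀ b, vt (lv b)
  vnb : ∀ a, vt a → ∀ b ∈ nb a, ¬ vt b
  fnb : ∀ a, ¬ vt a → ∀ b ∈ nb a, vt b
  card : ∀ a, vt a → (nb a).card ≤ 2
  ng : nb g = {c, f}
  cf : c ≠ f
  gl : ∀ b, g ≠ lv b


end Pool.Agent.Helper55.BLE.W
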