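import Mathlib
import Pool.Agent.Helper55.BLE.HPos
import Pool.Agent.Gold.W.GPin

/-!
Positivity of the height representation with pins.
-/

set_option autoImplicit false
set_option linter.unusedSectionVars false

namespace Pool.Agent.Helper55.BLE.W

open Pool.Agent.Helper70.BLB
open Pool.Agent.Helper55.BLD

/-- Status of a site: an ordinary vertex of one of the two classes, or a pinned vertex. -/
inductive St (B : Type)
  | cls (b : Bool)
  | pin (b : B)

/-- Sign attached to a status. -/
noncomputable def sgS {B : Type} : St B → ℝ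
  | .cls b => if b = true then 1 else -1
  | .pin _ => 1

theorem sgS_mul_self {B : Type} (z : St B) : sgS z * sgS z = 1 := by
  cases z with
  | cls b => simp only [sgS]; split_ifs <;> norm_num
  | pin b => simp [sgS]

theorem sgS_opp {B : Type} {a b : Bool} (h : a ≠ b) : sgS (.cls a : St B) * sgS (.cls b : St B) = -1 := by
  cases a <;> cases b <;> simp [sgS] at h ⊢

variable {A B : Type} [DecidableEq A]

/-- The gauge sign of a height configuration. -/
noncomputable def gs (m : ℕ) (s : ℕ → St B) (h : ℕ → A) : ℝ :=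
  ∏ i ∈ Finset.Icc 1 m, if h (2 * i - 1) = h (2 * i + 1) then 1 else sgS (s i)

theorem gs_mul_self (m : ℕ) (s : ℕ → St B) (h : ℕ → A) : gs m s h * gs m s h = 1 := by
  unfold gs
  rw [← Finset.prod_mul_distrib]
  apply Finset.prod_eq_one
  intro i _
  split_ifs
  · norm_num
  · exact sgS_mul_self _

theorem gs_update_even (m : ℕ) (s : ℕ → St B) (h : ℕ → A) (i : ℕ) (x : A) :
    gs m s (Function.update h (2 * i) x) = gs m s h := by
  unfold gs
  apply Finset.prod_congr rfl
  intro j hj
  rw [Finset.mem_Icc] at hj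
  rw [Function.update_of_ne (by omega), Function.update_of_ne (by omega)]

theorem gs_status {m : ℕ} (s : ℕ → St B) (h : ℕ → A) {i : ℕ} (hi : 1 ≤ i) (him : i ≤ m) (x : St B) :
    gs m s h * gs m (Function.update s i x) h =
      if h (2 * i - 1) = h (2 * i + 1) then 1 else sgS (s i) * sgS x := by
  unfold gs
  rw [← Finset.prod_mul_distrib, Finset.prod_eq_single i]
  · rw [Function.update_self]
    split_ifs <;> simp
  · intro j hj hji
    rw [Function.update_of_ne hji]
    split_ifs
    · norm_num
    · exact sgS_mul_self _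
  · intro hh; exact absurd (Finset.mem_Icc.2 ⟨hi, him⟩) hh

theorem gs_status_eq {m : ℕ} (s : ℕ → St B) (h : ℕ → A) {i : ℕ} (hi : 1 ≤ i) (him : i ≤ m) (x : St B)
    (he : h (2 * i - 1) = h (2 * i + 1)) : gs m (Function.update s i x) h = gs m s h := by
  have h1 := gs_status s h hi him x
  rw [if_pos he] at h1
  have h2 := gs_mul_self m s h
  calc gs m (Function.update s i x) h
      = (gs m s h * gs m s h) * gs m (Function.update s i x) h := by rw [h2, one_mul]
    _ = gs m s h * (gs m s h * gs m (Function.update s i x) h) := by ring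
    _ = gs m s h := by rw [h1, mul_one]

section

variable {nb : A → Finset A} {S : A → ℝ} {δ : ℝ} {vt : A → Prop} {lv : B → A} {c g f : A} {b0 : B}

theorem HGood.type (H : HGood nb S δ vt lv c g f) {h : ℕ → A} (hp : IsP nb (lv b0) h) :
    ∀ i, vt (h (2 * i)) ∧ ¬ vt (h (2 * i + 1))
  | 0 => by
    have h0 : vt (h 0) := by rw [hp.1]; exact H.vlv b0
    exact ⟨h0, H.vnb _ h0 _ (hp.2 0)⟩
  | (i + 1) => by
    have IH := H.type hp i
    have h1 : vt (h (2 * i + 1 + 1)) := H.fnb _ IH.2 _ (hp.2 (2 * i + 1))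
    have h2 : ¬ vt (h (2 * i + 1 + 1 + 1)) := H.vnb _ h1 _ (hp.2 (2 * i + 1 + 1))
    exact ⟨h1, h2⟩


theorem HGood.pvc (H : HGood nb S δ vt lv c g f) (b : B) : lv b ∈ nb c :=
  H.symm _ _ (by rw [H.nlv b]; simp)

theorem HGood.gc (H : HGood nb S δ vt lv c g f) : g ∈ nb c :=
  H.symm _ _ (by rw [H.ng]; simp)

theorem HGood.Spv (H : HGood nb S δ vt lv c g f) (b : B) : δ * S (lv b) = S c := by
  rw [← H.eig, H.nlv b, Finset.sum_singleton]

theorem HGood.pvg (H : HGood nb S δ vt lv c g f) (b : B) : lv b ≠ g := (H.gl b).symm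

theorem HGood.pv_inj (H : HGood nb S δ vt lv c g f) {a b : B} (hab : a ≠ b) :
    lv a ≠ lv b := fun h => hab (H.linj h)

/-- A pinned site has equal faces. -/
theorem HGood.faces (H : HGood nb S δ vt lv c g f) {h : ℕ → A} (hp : IsP nb (lv b0) h) {k : ℕ}
    {b : B} (hk : 1 ≤ k) (h1 : h k = lv b) : h (k - 1) = c ∧ h (k + 1) = c := by
  have a1 := hp.left H.toEig hk
  have a2 := hp.2 k
  rw [h1, H.nlv b, Finset.mem_singleton] at a1 a2
  exact ⟨a1, a2⟩

/-- Two-element neighbourhoods. -/
theorem HGood.two (H : HGood nb S δ vt lv c g f) {a x y : A} (ha : vt a) (hx : x ∈ nb a)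
    (hy : y ∈ nb a) (hxy : x ≠ y) : nb a = {x, y} := by
  have h1 : ({x, y} : Finset A) ⊆ nb a := by
    intro z hz
    rw [Finset.mem_insert, Finset.mem_singleton] at hz
    rcases hz with rfl | rfl
    · exact hx
    · exact hy
  have h2 : ({x, y} : Finset A).card = 2 := Finset.card_pair hxy
  exact (Finset.eq_of_subset_of_card_le h1 (by rw [h2]; exact H.card a ha)).symm

/-- Changing a face height flips the gauge sign by the signs of the two adjacent sites. -/
theorem HGood.gs_update_odd (H : HGood nb S δ vt lv c g f) {m : ℕ} (s : ℕ → St B) {h : ℕ → A}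
    {i : ℕ} {x : A} (hi : 1 ≤ i) (him : i + 1 ≤ m)
    (hp : IsP nb (lv b0) h) (he : h (2 * i) = h (2 * i + 2)) (hx : x ∈ nb (h (2 * i)))
    (hne : x ≠ h (2 * i + 1)) :
    gs m s h * gs m s (Function.update h (2 * i + 1) x) = sgS (s i) * sgS (s (i + 1)) := by
  have hv := (H.type hp i).1
  have htwo := H.two hv hx (hp.2 (2 * i)) hne
  have hl : h (2 * i - 1) = x ∨ h (2 * i - 1) = h (2 * i + 1) := by
    have := hp.left H.toEig (k := 2 * i) (by omega)
    rw [htwo, Finset.mem_insert, Finset.mem_singleton] at this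
    exact this
  have hr : h (2 * i + 3) = x ∨ h (2 * i + 3) = h (2 * i + 1) := by
    have := hp.2 (2 * i + 2)
    rw [← he, htwo, Finset.mem_insert, Finset.mem_singleton] at this
    exact this
  unfold gs
  rw [← Finset.prod_mul_distrib]
  rw [Finset.prod_eq_mul (a := i) (b := i + 1) (by omega)]
  · congr 1
    · rw [Function.update_of_ne (show 2 * i - 1 ≠ 2 * i + 1 by omega), Function.update_self]
      rcases hl with hl | hl
      · rw [if_neg (by rw [hl]; exact hne), if_pos hl, mul_one]
      · rw [if_pos hl, if_neg (by rw [hl]; exact hne.symm), one_mul]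
    · rw [show 2 * (i + 1) - 1 = 2 * i + 1 by omega, Function.update_self,
        Function.update_of_ne (show 2 * (i + 1) + 1 ≠ 2 * i + 1 by omega),
        show 2 * (i + 1) + 1 = 2 * i + 3 by omega]
      rcases hr with hr | hr
      · rw [if_neg (by rw [hr]; exact hne.symm), if_pos hr.symm, mul_one]
      · rw [if_pos hr.symm, if_neg (by rw [hr]; exact hne), one_mul]
  · intro j hj hji
    rw [Function.update_of_ne (by omega), Function.update_of_ne (by omega)]
    split_ifs
    · norm_num
    · exact sgS_mul_self _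
  · intro hh; exact absurd (Finset.mem_Icc.2 ⟨hi, by omega⟩) hh
  · intro hh; exact absurd (Finset.mem_Icc.2 ⟨by omega, him⟩) hh

end

/-- Domain: paths with the prescribed heights at pinned sites. -/
def Dom (nb : A → Finset A) (lv : B → A) (b0 : B) (s : ℕ → St B) (h : ℕ → A) : Prop :=
  IsP nb (lv b0) h ∧ ∀ i b, s i = .pin b → h (2 * i) = lv b

/-- The reference configuration. -/
def hst (lv : B → A) (c g : A) (s : ℕ → St B) (p : ℕ) : A :=
  if p % 2 = 1 then c else
    match s (p / 2) with
    | .cls _ => g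
    | .pin b => lv b

/-- Nonnegativity in the gauge, and positivity at the reference configuration. -/
def PosFun (nb : A → Finset A) (lv : B → A) (b0 : B) (c g : A) (m : ℕ) (s : ℕ → St B) (Φ : (ℕ → A) → ℝ) : Prop :=
  (∀ h, Dom nb lv b0 s h → 0 ≤ gs m s h * Φ h) ∧ 0 < Φ (hst lv c g s)

section

variable {nb : A → Finset A} {S : A → ℝ} {δ : ℝ} {vt : A → Prop} {lv : B → A} {c g f : A} {b0 : B}

omit [DecidableEq A] in
theorem hst_odd (s : ℕ → St B) (i : ℕ) : hst lv c g s (2 * i + 1) = c := by
  unfold hst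
  rw [if_pos (by omega)]

omit [DecidableEq A] in
theorem hst_odd' (s : ℕ → St B) {i : ℕ} (hi : 1 ≤ i) : hst lv c g s (2 * i - 1) = c := by
  unfold hst
  rw [if_pos (by omega)]

omit [DecidableEq A] in
theorem hst_cls (s : ℕ → St B) {i : ℕ} {b : Bool} (h : s i = .cls b) :
    hst lv c g s (2 * i) = g := by
  unfold hst
  rw [if_neg (by omega), show 2 * i / 2 = i by omega, h]

omit [DecidableEq A] in
theorem hst_pin (s : ℕ → St B) {i : ℕ} {b : B} (h : s i = .pin b) :
    hst lv c g s (2 * i) = lv b := by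
  unfold hst
  rw [if_neg (by omega), show 2 * i / 2 = i by omega, h]

theorem hst_nbc (H : HGood nb S δ vt lv c g f) (s : ℕ → St B) (i : ℕ) :
    hst lv c g s (2 * i) ∈ nb c := by
  cases h : s i with
  | cls b => rw [hst_cls s h]; exact H.gc
  | pin b => rw [hst_pin s h]; exact H.pvc b

theorem hst_dom (H : HGood nb S δ vt lv c g f) {s : ℕ → St B} (h0 : s 0 = .pin b0) :
    Dom nb lv b0 s (hst lv c g s) := by
  refine ⟨⟨?_, fun p => ?_⟩, fun i b hb => hst_pin s hb⟩
  · have := hst_pin (lv := lv) (c := c) (g := g) s h0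
    rw [Nat.mul_zero] at this
    rw [this]
  · rcases Nat.even_or_odd' p with ⟨i, rfl | rfl⟩
    · rw [hst_odd]
      exact H.symm _ _ (hst_nbc H s i)
    · rw [hst_odd, show 2 * i + 1 + 1 = 2 * (i + 1) by ring]
      exact hst_nbc H s (i + 1)

theorem gs_hst (m : ℕ) (s s' : ℕ → St B) : gs m s (hst lv c g s') = 1 := by
  unfold gs
  apply Finset.prod_eq_one
  intro i hi
  rw [Finset.mem_Icc] at hi
  rw [hst_odd, hst_odd' s' hi.1, if_pos rfl]

theorem hst_update (s : ℕ → St B) {i : ℕ} (z : St B) :
    hst lv c g (Function.update s i z) = Function.update (hst lv c g s) (2 * i)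
      (match z with
      | .cls _ => g
      | .pin b => lv b) := by
  funext p
  by_cases hp : p = 2 * i
  · subst hp
    rw [Function.update_self]
    unfold hst
    rw [if_neg (by omega), show 2 * i / 2 = i by omega, Function.update_self]
  · rw [Function.update_of_ne hp]
    unfold hst
    by_cases hp1 : p % 2 = 1
    · rw [if_pos hp1, if_pos hp1]
    · rw [if_neg hp1, if_neg hp1, Function.update_of_ne (by omega)]

theorem gE_eq (k : ℕ) (φ : (ℕ → A) → ℝ) {h : ℕ → A} (hp : IsP nb (lv b0) h)
    (he : h (k - 1) = h (k + 1)) : gE nb S (lv b0) k φ h =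
      (∑ x ∈ nb (h (k - 1)), S x * φ (Function.update h k x)) / S (h (k - 1)) := by
  classical
  have : gE nb S (lv b0) k φ h = if IsP nb (lv b0) h ∧ h (k - 1) = h (k + 1) then
      (∑ x ∈ nb (h (k - 1)), S x * φ (Function.update h k x)) / S (h (k - 1)) else 0 := by
    unfold gE
    simp only [LinearMap.coe_mk, AddHom.coe_mk]
  rw [this, if_pos ⟨hp, he⟩]

theorem gE_ne (k : ℕ) (φ : (ℕ → A) → ℝ) {h : ℕ → A} (hn : h (k - 1) ≠ h (k + 1)) :
    gE nb S (lv b0) k φ h = 0 := by
  classical
  have : gE nb S (lv b0) k φ h = if IsP nb (lv b0) h ∧ h (k - 1) = h (k + 1) then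
      (∑ x ∈ nb (h (k - 1)), S x * φ (Function.update h k x)) / S (h (k - 1)) else 0 := by
    unfold gE
    simp only [LinearMap.coe_mk, AddHom.coe_mk]
  rw [this, if_neg (fun hh => hn hh.2)]

/-- Value of an operation in the height representation. -/
noncomputable def hval (nb : A → Finset A) (S : A → ℝ) (δ : ℝ) (lv : B → A) (b0 : B) (x : OpP B) :
    Module.End ℝ ((ℕ → A) → ℝ) := OpP.val (δ • 1) (δ⁻¹ • 1) (gE nb S (lv b0)) (gP lv) x

theorem hval_J (i : ℕ) (Φ : (ℕ → A) → ℝ) (h : ℕ → A) :
    hval nb S δ lv b0 (.J i) Φ h = δ⁻¹ * gE nb S (lv b0) (2 * i + 1) Φ h := by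
  simp [hval, OpP.val]

theorem hval_H (i : ℕ) (Φ : (ℕ → A) → ℝ) (h : ℕ → A) :
    hval nb S δ lv b0 (.H i) Φ h = Φ h - δ⁻¹ * gE nb S (lv b0) (2 * i + 1) Φ h := by
  simp [hval, OpP.val]

theorem hval_D (i : ℕ) (Φ : (ℕ → A) → ℝ) (h : ℕ → A) :
    hval nb S δ lv b0 (.D i) Φ h = δ * gE nb S (lv b0) (2 * i) Φ h := by
  simp [hval, OpP.val]

theorem hval_V (i : ℕ) (Φ : (ℕ → A) → ℝ) (h : ℕ → A) :
    hval nb S δ lv b0 (.V i) Φ h = δ * gE nb S (lv b0) (2 * i) Φ h - Φ h := by
  simp [hval, OpP.val]

theorem hval_P (b : B) (i : ℕ) (Φ : (ℕ → A) → ℝ) (h : ℕ → A) :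
    hval nb S δ lv b0 (.P b i) Φ h = if h (2 * i) = lv b then Φ h else 0 := rfl

theorem Dom.update_face (H : HGood nb S δ vt lv c g f) {s : ℕ → St B} {h : ℕ → A}
    (hd : Dom nb lv b0 s h) {i : ℕ} {x : A} (he : h (2 * i) = h (2 * i + 2))
    (hx : x ∈ nb (h (2 * i))) : Dom nb lv b0 s (Function.update h (2 * i + 1) x) := by
  refine ⟨hd.1.upd H.toEig (by omega) ?_ ?_, fun j b hb => ?_⟩
  · rw [show 2 * i + 1 - 1 = 2 * i by omega]; exact he
  · rw [show 2 * i + 1 - 1 = 2 * i by omega]; exact hx
  · rw [Function.update_of_ne (by omega)]; exact hd.2 j b hb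

theorem Dom.update_site (H : HGood nb S δ vt lv c g f) {s : ℕ → St B} {h : ℕ → A}
    (hd : Dom nb lv b0 s h) {i : ℕ} {x : A} (hi : 1 ≤ i)
    (he : h (2 * i - 1) = h (2 * i + 1)) (hx : x ∈ nb (h (2 * i - 1))) (z : St B)
    (hz : ∀ b, z = .pin b → x = lv b) :
    Dom nb lv b0 (Function.update s i z) (Function.update h (2 * i) x) := by
  refine ⟨hd.1.upd H.toEig (by omega) he hx, fun j b hb => ?_⟩
  by_cases hji : j = i
  · subst hji
    rw [Function.update_self] at hb ⊢
    exact hz b hb
  · rw [Function.update_of_ne hji] at hb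
    rw [Function.update_of_ne (by omega)]
    exact hd.2 j b hb

theorem Dom.status {s : ℕ → St B} {h : ℕ → A} (hd : Dom nb lv b0 s h) {i : ℕ} (z : St B)
    (hz : ∀ b, z = .pin b → h (2 * i) = lv b) : Dom nb lv b0 (Function.update s i z) h := by
  refine ⟨hd.1, fun j b hb => ?_⟩
  by_cases hji : j = i
  · subst hji
    rw [Function.update_self] at hb
    exact hz b hb
  · rw [Function.update_of_ne hji] at hb
    exact hd.2 j b hb

/-- Identification of two sites with the same status. -/
theorem pos_J (H : HGood nb S δ vt lv c g f) {m i : ℕ} {s : ℕ → St B} {Φ : (ℕ → A) → ℝ}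
    (h0 : s 0 = .pin b0) (hΦ : PosFun nb lv b0 c g m s Φ) (him : i + 1 ≤ m)
    (hs : s i = s (i + 1)) : PosFun nb lv b0 c g m s (hval nb S δ lv b0 (.J i) Φ) := by
  have hδ0 : 0 < δ := by linarith [H.hδ]
  have key : ∀ h, Dom nb lv b0 s h → h (2 * i) = h (2 * i + 2) → ∀ x ∈ nb (h (2 * i)),
      0 ≤ gs m s h * Φ (Function.update h (2 * i + 1) x) := by
    intro h hd he x hx
    have h1 := hΦ.1 _ (hd.update_face H he hx)
    have h2 : gs m s (Function.update h (2 * i + 1) x) = gs m s h := by
      by_cases hxe : x = h (2 * i + 1)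
      · rw [hxe, Function.update_eq_self]
      · have hi : 1 ≤ i := by
          by_contra hcon
          have hi0 : i = 0 := by omega
          subst hi0
          have a1 := hd.1.2 0
          have a2 : h (2 * 0) = lv b0 := hd.1.1
          rw [a2, H.nlv b0, Finset.mem_singleton] at hx
          rw [hd.1.1, H.nlv b0, Finset.mem_singleton] at a1
          exact hxe (by rw [hx]; exact a1.symm)
        have h3 := H.gs_update_odd s hi him hd.1 he hx hxe
        rw [← hs, sgS_mul_self] at h3
        have h4 := gs_mul_self m s h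
        calc gs m s (Function.update h (2 * i + 1) x)
            = (gs m s h * gs m s h) * gs m s (Function.update h (2 * i + 1) x) := by
              rw [h4, one_mul]
          _ = gs m s h * (gs m s h * gs m s (Function.update h (2 * i + 1) x)) := by ring
          _ = gs m s h := by rw [h3, mul_one]
    rw [h2] at h1
    exact h1
  refine ⟨fun h hd => ?_, ?_⟩
  · rw [hval_J]
    by_cases he : h (2 * i) = h (2 * i + 2)
    · have he' : h (2 * i + 1 - 1) = h (2 * i + 1 + 1) := by
        rw [show 2 * i + 1 - 1 = 2 * i by omega]; exact he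
      rw [gE_eq _ _ hd.1 he', show 2 * i + 1 - 1 = 2 * i by omega]
      have hSa := H.pos (h (2 * i))
      have e1 : gs m s h * (δ⁻¹ * ((∑ x ∈ nb (h (2 * i)), S x *
          Φ (Function.update h (2 * i + 1) x)) / S (h (2 * i)))) =
        δ⁻¹ * (∑ x ∈ nb (h (2 * i)), S x *
          (gs m s h * Φ (Function.update h (2 * i + 1) x))) / S (h (2 * i)) := by
        have : (∑ x ∈ nb (h (2 * i)), S x * (gs m s h * Φ (Function.update h (2 * i + 1) x))) =
            gs m s h * ∑ x ∈ nb (h (2 * i)), S x * Φ (Function.update h (2 * i + 1) x) := by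
          rw [Finset.mul_sum]
          apply Finset.sum_congr rfl
          intro x _
          ring
        rw [this]; ring
      rw [e1]
      have h5 : 0 ≤ ∑ x ∈ nb (h (2 * i)), S x *
          (gs m s h * Φ (Function.update h (2 * i + 1) x)) :=
        Finset.sum_nonneg fun x hx => mul_nonneg (H.pos x).le (key h hd he x hx)
      positivity
    · rw [gE_ne, mul_zero, mul_zero]
      rw [show 2 * i + 1 - 1 = 2 * i by omega]
      exact he
  · rw [hval_J]
    have hd := hst_dom H h0
    have he : hst lv c g s (2 * i) = hst lv c g s (2 * i + 2) := by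
      rw [show 2 * i + 2 = 2 * (i + 1) by ring]
      cases h : s i with
      | cls b => rw [hst_cls s h, hst_cls s (hs ▸ h)]
      | pin b => rw [hst_pin s h, hst_pin s (hs ▸ h)]
    have he' : hst lv c g s (2 * i + 1 - 1) = hst lv c g s (2 * i + 1 + 1) := by
      rw [show 2 * i + 1 - 1 = 2 * i by omega]; exact he
    rw [gE_eq _ _ hd.1 he', show 2 * i + 1 - 1 = 2 * i by omega]
    have hcm : c ∈ nb (hst lv c g s (2 * i)) := H.symm _ _ (hst_nbc H s i)
    have h5 : 0 < ∑ x ∈ nb (hst lv c g s (2 * i)), S x *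
        Φ (Function.update (hst lv c g s) (2 * i + 1) x) := by
      apply Finset.sum_pos'
      · intro x hx
        have := key _ hd he x hx
        rw [gs_hst, one_mul] at this
        exact mul_nonneg (H.pos x).le this
      · refine ⟨c, hcm, mul_pos (H.pos c) ?_⟩
        have : Function.update (hst lv c g s) (2 * i + 1) c = hst lv c g s := by
          rw [Function.update_eq_self_iff, hst_odd]
        rw [this]
        exact hΦ.2
    have hSa := H.pos (hst lv c g s (2 * i))
    positivity

/-- An edge between two sites of different status. -/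
theorem pos_H (H : HGood nb S δ vt lv c g f) {m i : ℕ} {s : ℕ → St B} {Φ : (ℕ → A) → ℝ}
    (h0 : s 0 = .pin b0) (hΦ : PosFun nb lv b0 c g m s Φ) (him : i + 1 ≤ m)
    (hs : s i ≠ s (i + 1)) : PosFun nb lv b0 c g m s (hval nb S δ lv b0 (.H i) Φ) := by
  have hδ0 : 0 < δ := by linarith [H.hδ]
  -- the case of two face heights
  have hval2 : ∀ h, Dom nb lv b0 s h → h (2 * i) = h (2 * i + 2) → ∀ x ∈ nb (h (2 * i)),
      x ≠ h (2 * i + 1) → hval nb S δ lv b0 (.H i) Φ h =
      S x / (δ * S (h (2 * i))) * (Φ h - Φ (Function.update h (2 * i + 1) x)) := by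
    intro h hd he x hx hne
    have he' : h (2 * i + 1 - 1) = h (2 * i + 1 + 1) := by
      rw [show 2 * i + 1 - 1 = 2 * i by omega]; exact he
    have htwo := H.two (H.type hd.1 i).1 hx (hd.1.2 (2 * i)) hne
    have heig := H.eig (h (2 * i))
    rw [htwo, Finset.sum_pair hne] at heig
    rw [hval_H, gE_eq _ _ hd.1 he', show 2 * i + 1 - 1 = 2 * i by omega, htwo,
      Finset.sum_pair hne, Function.update_eq_self]
    have hSa := H.pos (h (2 * i))
    have : S (h (2 * i + 1)) = δ * S (h (2 * i)) - S x := by linarith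
    rw [this]
    field_simp
    ring
  -- in the case of one face height the value vanishes
  have hval1 : ∀ h, Dom nb lv b0 s h → h (2 * i) = h (2 * i + 2) →
      (∀ x ∈ nb (h (2 * i)), x = h (2 * i + 1)) → hval nb S δ lv b0 (.H i) Φ h = 0 := by
    intro h hd he hall
    have he' : h (2 * i + 1 - 1) = h (2 * i + 1 + 1) := by
      rw [show 2 * i + 1 - 1 = 2 * i by omega]; exact he
    have hone : nb (h (2 * i)) = {h (2 * i + 1)} := by
      ext x
      rw [Finset.mem_singleton]
      exact ⟨hall x, fun hx => hx ▸ hd.1.2 (2 * i)⟩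
    have heig := H.eig (h (2 * i))
    rw [hone, Finset.sum_singleton] at heig
    rw [hval_H, gE_eq _ _ hd.1 he', show 2 * i + 1 - 1 = 2 * i by omega, hone,
      Finset.sum_singleton, Function.update_eq_self, heig]
    have hSa := H.pos (h (2 * i))
    field_simp
    ring
  have hne0 : ∀ h, Dom nb lv b0 s h → h (2 * i) ≠ h (2 * i + 2) →
      hval nb S δ lv b0 (.H i) Φ h = Φ h := by
    intro h hd he
    rw [hval_H, gE_ne, mul_zero, sub_zero]
    rw [show 2 * i + 1 - 1 = 2 * i by omega]
    exact he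
  -- sign of the updated term
  have hupd : ∀ h, Dom nb lv b0 s h → h (2 * i) = h (2 * i + 2) → ∀ x ∈ nb (h (2 * i)),
      x ≠ h (2 * i + 1) → gs m s h * Φ (Function.update h (2 * i + 1) x) ≤ 0 := by
    intro h hd he x hx hne
    -- the sites are not pinned
    have hnp : ∀ b, nb (h (2 * i)) = nb (lv b) → False := by
      intro b hb
      have a1 := hd.1.2 (2 * i)
      rw [hb, H.nlv, Finset.mem_singleton] at hx a1
      exact hne (by rw [hx, a1])
    have hi : 1 ≤ i := by
      by_contra hcon
      have hi0 : i = 0 := by omega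
      subst hi0
      exact hnp b0 (by rw [hd.2 0 b0 h0])
    have hsg : sgS (s i) * sgS (s (i + 1)) = -1 := by
      cases h1 : s i with
      | pin b => exact absurd (by rw [hd.2 i b h1]) (hnp b)
      | cls a =>
        cases h2 : s (i + 1) with
        | pin b =>
          have := hd.2 (i + 1) b h2
          rw [show 2 * (i + 1) = 2 * i + 2 by ring] at this
          exact absurd (by rw [he, this]) (hnp b)
        | cls b =>
          apply sgS_opp
          intro hab
          rw [h1, h2, hab] at hs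
          exact hs rfl
    have h1 := hΦ.1 _ (hd.update_face H he hx)
    have h3 := H.gs_update_odd s hi him hd.1 he hx hne
    rw [hsg] at h3
    have h4 := gs_mul_self m s h
    have h5 : gs m s (Function.update h (2 * i + 1) x) = - gs m s h := by
      calc gs m s (Function.update h (2 * i + 1) x)
          = (gs m s h * gs m s h) * gs m s (Function.update h (2 * i + 1) x) := by
            rw [h4, one_mul]
        _ = gs m s h * (gs m s h * gs m s (Function.update h (2 * i + 1) x)) := by ring
        _ = - gs m s h := by rw [h3]; ring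
    rw [h5] at h1
    linarith
  refine ⟨fun h hd => ?_, ?_⟩
  · by_cases he : h (2 * i) = h (2 * i + 2)
    · by_cases hall : ∀ x ∈ nb (h (2 * i)), x = h (2 * i + 1)
      · rw [hval1 h hd he hall, mul_zero]
      · push Not at hall
        obtain ⟨x, hx, hne⟩ := hall
        rw [hval2 h hd he x hx hne]
        have hSa := H.pos (h (2 * i))
        have hSx := H.pos x
        have h1 := hupd h hd he x hx hne
        have h2 := hΦ.1 h hd
        have e : gs m s h * (S x / (δ * S (h (2 * i))) *
            (Φ h - Φ (Function.update h (2 * i + 1) x))) =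
            S x / (δ * S (h (2 * i))) * (gs m s h * Φ h -
              gs m s h * Φ (Function.update h (2 * i + 1) x)) := by ring
        rw [e]
        apply mul_nonneg
        · positivity
        · linarith
    · rw [hne0 h hd he]
      exact hΦ.1 h hd
  · have hd := hst_dom H h0
    by_cases he : hst lv c g s (2 * i) = hst lv c g s (2 * i + 2)
    · have he2 := he
      rw [show 2 * i + 2 = 2 * (i + 1) by ring] at he2
      have hg : hst lv c g s (2 * i) = g := by
        cases h1 : s i with
        | cls a => exact hst_cls s h1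
        | pin a =>
          exfalso
          rw [hst_pin s h1] at he2
          cases h2 : s (i + 1) with
          | cls b => rw [hst_cls s h2] at he2; exact H.pvg a he2
          | pin b =>
            rw [hst_pin s h2] at he2
            apply H.pv_inj _ he2
            intro hab
            rw [h1, h2, hab] at hs
            exact hs rfl
      have hx : f ∈ nb (hst lv c g s (2 * i)) := by rw [hg, H.ng]; simp
      have hne : f ≠ hst lv c g s (2 * i + 1) := by rw [hst_odd]; exact H.cf.symm
      rw [hval2 _ hd he f hx hne]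
      have h1 := hupd _ hd he f hx hne
      rw [gs_hst, one_mul] at h1
      have h2 := hΦ.2
      have hSa := H.pos (hst lv c g s (2 * i))
      have hSf := H.pos f
      apply mul_pos
      · positivity
      · linarith
    · rw [hne0 _ hd he]
      exact hΦ.2

/-- General renewal of a site. -/
theorem pos_D_gen (H : HGood nb S δ vt lv c g f) {m i : ℕ} {s : ℕ → St B} {Ψ : (ℕ → A) → ℝ}
    (h0 : s 0 = .pin b0)
    (key : ∀ h, Dom nb lv b0 s h → h (2 * i - 1) = h (2 * i + 1) → ∀ x ∈ nb (h (2 * i - 1)),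
      0 ≤ gs m s h * Ψ (Function.update h (2 * i) x)) (hi : 1 ≤ i)
    (hpos : ∃ x ∈ nb c, 0 < Ψ (Function.update (hst lv c g s) (2 * i) x)) :
    PosFun nb lv b0 c g m s (hval nb S δ lv b0 (.D i) Ψ) := by
  have hδ0 : 0 < δ := by linarith [H.hδ]
  refine ⟨fun h hd => ?_, ?_⟩
  · rw [hval_D]
    by_cases he : h (2 * i - 1) = h (2 * i + 1)
    · rw [gE_eq _ _ hd.1 he]
      have hSb := H.pos (h (2 * i - 1))
      have e1 : gs m s h * (δ * ((∑ x ∈ nb (h (2 * i - 1)), S x *
          Ψ (Function.update h (2 * i) x)) / S (h (2 * i - 1)))) =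
        δ * (∑ x ∈ nb (h (2 * i - 1)), S x *
          (gs m s h * Ψ (Function.update h (2 * i) x))) / S (h (2 * i - 1)) := by
        have : (∑ x ∈ nb (h (2 * i - 1)), S x * (gs m s h * Ψ (Function.update h (2 * i) x))) =
            gs m s h * ∑ x ∈ nb (h (2 * i - 1)), S x * Ψ (Function.update h (2 * i) x) := by
          rw [Finset.mul_sum]
          apply Finset.sum_congr rfl
          intro x _
          ring
        rw [this]; ring
      rw [e1]
      have h5 : 0 ≤ ∑ x ∈ nb (h (2 * i - 1)), S x *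
          (gs m s h * Ψ (Function.update h (2 * i) x)) :=
        Finset.sum_nonneg fun x hx => mul_nonneg (H.pos x).le (key h hd he x hx)
      positivity
    · rw [gE_ne _ _ he, mul_zero, mul_zero]
  · rw [hval_D]
    have hd := hst_dom H h0
    have hv1 : hst lv c g s (2 * i - 1) = c := hst_odd' s hi
    have he : hst lv c g s (2 * i - 1) = hst lv c g s (2 * i + 1) := by rw [hv1, hst_odd]
    rw [gE_eq _ _ hd.1 he, hv1]
    obtain ⟨x, hx, hpx⟩ := hpos
    have h5 : 0 < ∑ x ∈ nb c, S x * Ψ (Function.update (hst lv c g s) (2 * i) x) := by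
      apply Finset.sum_pos'
      · intro y hy
        have := key _ hd he y (by rw [hv1]; exact hy)
        rw [gs_hst, one_mul] at this
        exact mul_nonneg (H.pos y).le this
      · exact ⟨x, hx, mul_pos (H.pos x) hpx⟩
    have hSc := H.pos c
    positivity

theorem pos_D (H : HGood nb S δ vt lv c g f) {m i : ℕ} {s : ℕ → St B} {Φ : (ℕ → A) → ℝ} {b : Bool}
    (h0 : s 0 = .pin b0)
    (hΦ : PosFun nb lv b0 c g m (Function.update s i (.cls b)) Φ) (hi : 1 ≤ i) (him : i ≤ m) :
    PosFun nb lv b0 c g m s (hval nb S δ lv b0 (.D i) Φ) := by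
  refine pos_D_gen H h0 (fun h hd he x hx => ?_) hi ⟨g, H.gc, ?_⟩
  · have h1 := hΦ.1 _ (hd.update_site H hi he hx (.cls b) (by intro b' hb'; cases hb'))
    rwa [gs_update_even, gs_status_eq s h hi him _ he] at h1
  · have := hΦ.2
    rwa [hst_update] at this

/-- Renewal of a site by a pinned vertex. -/
theorem pos_DP (H : HGood nb S δ vt lv c g f) {m i : ℕ} {s : ℕ → St B} {Φ : (ℕ → A) → ℝ} {b : B}
    (h0 : s 0 = .pin b0)
    (hΦ : PosFun nb lv b0 c g m (Function.update s i (.pin b)) Φ) (hi : 1 ≤ i) (him : i ≤ m) :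
    PosFun nb lv b0 c g m s (hval nb S δ lv b0 (.D i) (hval nb S δ lv b0 (.P b i) Φ)) := by
  refine pos_D_gen H h0 (fun h hd he x hx => ?_) hi ⟨lv b, H.pvc b, ?_⟩
  · rw [hval_P, Function.update_self]
    split_ifs with hxb
    · have h1 := hΦ.1 _ (hd.update_site H hi he hx (.pin b) (by
        intro b' hb'; cases hb'; exact hxb))
      rwa [gs_update_even, gs_status_eq s h hi him _ he] at h1
    · rw [mul_zero]
  · rw [hval_P, Function.update_self, if_pos rfl]
    have := hΦ.2
    rwa [hst_update] at this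

theorem pos_V (H : HGood nb S δ vt lv c g f) {m i : ℕ} {s : ℕ → St B} {Φ : (ℕ → A) → ℝ} {b : Bool}
    (h0 : s 0 = .pin b0) (hs : s i ≠ .cls b)
    (hΦ : PosFun nb lv b0 c g m (Function.update s i (.cls b)) Φ) (hi : 1 ≤ i) (him : i ≤ m) :
    PosFun nb lv b0 c g m s (hval nb S δ lv b0 (.V i) Φ) := by
  have hδ0 : 0 < δ := by linarith [H.hδ]
  have key : ∀ h, Dom nb lv b0 s h → h (2 * i - 1) = h (2 * i + 1) → ∀ x ∈ nb (h (2 * i - 1)),
      0 ≤ gs m s h * Φ (Function.update h (2 * i) x) := by
    intro h hd he x hx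
    have h1 := hΦ.1 _ (hd.update_site H hi he hx (.cls b) (by intro b' hb'; cases hb'))
    rwa [gs_update_even, gs_status_eq s h hi him _ he] at h1
  -- formula on configurations with equal faces
  have hval : ∀ h, Dom nb lv b0 s h → h (2 * i - 1) = h (2 * i + 1) →
      hval nb S δ lv b0 (.V i) Φ h = (δ * S (h (2 * i)) / S (h (2 * i - 1)) - 1) * Φ h +
        δ / S (h (2 * i - 1)) * ∑ x ∈ (nb (h (2 * i - 1))).erase (h (2 * i)),
          S x * Φ (Function.update h (2 * i) x) := by
    intro h hd he
    have hy : h (2 * i) ∈ nb (h (2 * i - 1)) := by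
      have := hd.1.2 (2 * i - 1)
      rwa [show 2 * i - 1 + 1 = 2 * i by omega] at this
    rw [hval_V, gE_eq _ _ hd.1 he, ← Finset.add_sum_erase _ _ hy, Function.update_eq_self]
    ring
  have hcoef : ∀ h, Dom nb lv b0 s h → 0 ≤ δ * S (h (2 * i)) / S (h (2 * i - 1)) - 1 := by
    intro h hd
    have hSb := H.pos (h (2 * i - 1))
    have h1 := hd.1.left H.toEig (k := 2 * i) (by omega)
    have h2 := H.eig (h (2 * i))
    have h3 : S (h (2 * i - 1)) ≤ ∑ x ∈ nb (h (2 * i)), S x :=
      Finset.single_le_sum (f := S) (fun x _ => (H.pos x).le) h1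
    rw [h2] at h3
    have h4 : 1 ≤ δ * S (h (2 * i)) / S (h (2 * i - 1)) := (one_le_div hSb).2 h3
    linarith
  have hrest : ∀ h, Dom nb lv b0 s h → h (2 * i - 1) = h (2 * i + 1) →
      0 ≤ gs m s h * ∑ x ∈ (nb (h (2 * i - 1))).erase (h (2 * i)),
          S x * Φ (Function.update h (2 * i) x) := by
    intro h hd he
    rw [Finset.mul_sum]
    apply Finset.sum_nonneg
    intro x hx
    have h1 := key h hd he x (Finset.mem_of_mem_erase hx)
    have h2 := (H.pos x).le
    calc (0 : ℝ) ≤ S x * (gs m s h * Φ (Function.update h (2 * i) x)) := mul_nonneg h2 h1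
      _ = _ := by ring
  refine ⟨fun h hd => ?_, ?_⟩
  · by_cases he : h (2 * i - 1) = h (2 * i + 1)
    · rw [hval h hd he]
      have hSb := H.pos (h (2 * i - 1))
      have hy : h (2 * i) ∈ nb (h (2 * i - 1)) := by
        have := hd.1.2 (2 * i - 1)
        rwa [show 2 * i - 1 + 1 = 2 * i by omega] at this
      have k1 := key h hd he (h (2 * i)) hy
      rw [Function.update_eq_self] at k1
      have k2 := hcoef h hd
      have k3 := hrest h hd he
      have e1 : gs m s h * ((δ * S (h (2 * i)) / S (h (2 * i - 1)) - 1) * Φ h +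
        δ / S (h (2 * i - 1)) * ∑ x ∈ (nb (h (2 * i - 1))).erase (h (2 * i)),
          S x * Φ (Function.update h (2 * i) x)) =
          (δ * S (h (2 * i)) / S (h (2 * i - 1)) - 1) * (gs m s h * Φ h) +
          δ / S (h (2 * i - 1)) * (gs m s h * ∑ x ∈ (nb (h (2 * i - 1))).erase (h (2 * i)),
          S x * Φ (Function.update h (2 * i) x)) := by ring
      rw [e1]
      have k4 : 0 ≤ δ / S (h (2 * i - 1)) := by positivity
      exact add_nonneg (mul_nonneg k2 k1) (mul_nonneg k4 k3)
    · rw [hval_V, gE_ne _ _ he, mul_zero, zero_sub]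
      cases h1 : s i with
      | pin b' =>
        exfalso
        have h2 := H.faces hd.1 (k := 2 * i) (by omega) (hd.2 i b' h1)
        exact he (by rw [h2.1, h2.2])
      | cls b' =>
        have hbb : b' ≠ b := fun hh => hs (by rw [h1, hh])
        have hd' : Dom nb lv b0 (Function.update s i (.cls b)) h :=
          hd.status (.cls b) (by intro b'' hb''; cases hb'')
        have h2 := hΦ.1 h hd'
        have h3 := gs_status s h hi him (.cls b)
        rw [if_neg he, h1, sgS_opp hbb] at h3
        have h4 := gs_mul_self m s h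
        have h5 : gs m (Function.update s i (.cls b)) h = - gs m s h := by
          calc gs m (Function.update s i (.cls b)) h
              = (gs m s h * gs m s h) * gs m (Function.update s i (.cls b)) h := by
                rw [h4, one_mul]
            _ = gs m s h * (gs m s h * gs m (Function.update s i (.cls b)) h) := by ring
            _ = - gs m s h := by rw [h3]; ring
        rw [h5] at h2
        linarith
  · have hd := hst_dom H h0
    have hv1 : hst lv c g s (2 * i - 1) = c := hst_odd' s hi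
    have he : hst lv c g s (2 * i - 1) = hst lv c g s (2 * i + 1) := by rw [hv1, hst_odd]
    rw [hval _ hd he]
    have hΦ2 := hΦ.2
    rw [hst_update] at hΦ2
    have k2 := hcoef _ hd
    have k3 := hrest _ hd he
    rw [gs_hst, one_mul] at k3
    have hSb := H.pos (hst lv c g s (2 * i - 1))
    have k4 : 0 < δ / S (hst lv c g s (2 * i - 1)) := by positivity
    by_cases hy : hst lv c g s (2 * i) = g
    · -- the old height is `g`
      have hself : Function.update (hst lv c g s) (2 * i) g = hst lv c g s := by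
        rw [Function.update_eq_self_iff, hy]
      have hΦ3 : 0 < Φ (hst lv c g s) := by rw [← hself]; exact hΦ2
      have heig := H.eig g
      rw [H.ng, Finset.sum_pair H.cf] at heig
      have hSc := H.pos c
      have hSf := H.pos f
      have k5 : 0 < δ * S (hst lv c g s (2 * i)) / S (hst lv c g s (2 * i - 1)) - 1 := by
        rw [hy, hv1, ← heig]
        have : 1 < (S c + S f) / S c := by rw [one_lt_div hSc]; linarith
        linarith
      exact add_pos_of_pos_of_nonneg (mul_pos k5 hΦ3) (mul_nonneg k4.le k3)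
    · have hmem : g ∈ (nb (hst lv c g s (2 * i - 1))).erase (hst lv c g s (2 * i)) := by
        rw [Finset.mem_erase, hv1]
        exact ⟨fun hh => hy hh.symm, H.gc⟩
      have k6 : 0 < ∑ x ∈ (nb (hst lv c g s (2 * i - 1))).erase (hst lv c g s (2 * i)),
          S x * Φ (Function.update (hst lv c g s) (2 * i) x) := by
        apply Finset.sum_pos'
        · intro x hx
          have := key _ hd he x (Finset.mem_of_mem_erase hx)
          rw [gs_hst, one_mul] at this
          exact mul_nonneg (H.pos x).le this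
        · exact ⟨g, hmem, mul_pos (H.pos g) hΦ2⟩
      have hyc : hst lv c g s (2 * i) ∈ nb (hst lv c g s (2 * i - 1)) := by
        rw [hv1]; exact hst_nbc H s i
      have k1 := key _ hd he _ hyc
      rw [Function.update_eq_self, gs_hst, one_mul] at k1
      exact add_pos_of_nonneg_of_pos (mul_nonneg k2 k1) (mul_pos k4 k6)

/-- Renewal by an adjacent pinned vertex. -/
theorem pos_VP (H : HGood nb S δ vt lv c g f) {m i : ℕ} {s : ℕ → St B} {Φ : (ℕ → A) → ℝ} {b : B}
    (h0 : s 0 = .pin b0) (hs : s i ≠ .pin b)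
    (hΦ : PosFun nb lv b0 c g m (Function.update s i (.pin b)) Φ) (hi : 1 ≤ i) (him : i ≤ m) :
    PosFun nb lv b0 c g m s (hval nb S δ lv b0 (.V i) (hval nb S δ lv b0 (.P b i) Φ)) := by
  have hδ0 : 0 < δ := by linarith [H.hδ]
  have hval : ∀ h, Dom nb lv b0 s h →
      hval nb S δ lv b0 (.V i) (hval nb S δ lv b0 (.P b i) Φ) h =
        if h (2 * i - 1) = c ∧ h (2 * i + 1) = c ∧ h (2 * i) ≠ lv b then
          Φ (Function.update h (2 * i) (lv b)) else 0 := by
    intro h hd
    rw [hval_V]
    by_cases he : h (2 * i - 1) = h (2 * i + 1)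
    · rw [gE_eq _ _ hd.1 he]
      by_cases hc : h (2 * i - 1) = c
      · have hc2 : h (2 * i + 1) = c := by rw [← he]; exact hc
        rw [hc, Finset.sum_eq_single (lv b)]
        · rw [hval_P, Function.update_self, if_pos rfl, hval_P]
          have hSc := H.pos c
          have hS := H.Spv b
          have e1 : δ * (S (lv b) * Φ (Function.update h (2 * i) (lv b)) / S c) =
              Φ (Function.update h (2 * i) (lv b)) := by
            rw [← mul_div_assoc, ← mul_assoc, hS]
            field_simp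
          rw [e1]
          by_cases hy : h (2 * i) = lv b
          · rw [if_pos hy, if_neg (by tauto)]
            have : Function.update h (2 * i) (lv b) = h := by
              rw [Function.update_eq_self_iff, hy]
            rw [this, sub_self]
          · rw [if_neg hy, if_pos ⟨rfl, hc2, hy⟩, sub_zero]
        · intro x _ hxb
          rw [hval_P, Function.update_self, if_neg hxb, mul_zero]
        · intro hh
          exact absurd (H.pvc b) hh
      · rw [if_neg (by tauto), Finset.sum_eq_zero]
        · rw [hval_P, if_neg]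
          · simp
          · intro hy
            exact hc (H.faces hd.1 (k := 2 * i) (by omega) hy).1
        · intro x hx
          rw [hval_P, Function.update_self, if_neg, mul_zero]
          intro hxb
          rw [hxb] at hx
          have := H.symm _ _ hx
          rw [H.nlv b, Finset.mem_singleton] at this
          exact hc this
    · rw [gE_ne _ _ he, if_neg (by intro hh; exact he (by rw [hh.1, hh.2.1])), hval_P, if_neg]
      · simp
      · intro hy
        have := H.faces hd.1 (k := 2 * i) (by omega) hy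
        exact he (by rw [this.1, this.2])
  refine ⟨fun h hd => ?_, ?_⟩
  · rw [hval h hd]
    split_ifs with hc
    · have he : h (2 * i - 1) = h (2 * i + 1) := by rw [hc.1, hc.2.1]
      have h1 := hΦ.1 _ (hd.update_site H hi he (x := lv b)
        (by rw [hc.1]; exact H.pvc b) (.pin b) (by intro b' hb'; cases hb'; rfl))
      rwa [gs_update_even, gs_status_eq s h hi him _ he] at h1
    · rw [mul_zero]
  · have hd := hst_dom H h0
    rw [hval _ hd, if_pos]
    · have := hΦ.2
      rwa [hst_update] at this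
    · refine ⟨hst_odd' s hi, hst_odd s i, ?_⟩
      cases h1 : s i with
      | cls a => rw [hst_cls s h1]; exact (H.pvg b).symm
      | pin a =>
        rw [hst_pin s h1]
        apply H.pv_inj
        intro hab
        exact hs (by rw [h1, hab])

/-- A pin at a pinned site. -/
theorem pos_P {m i : ℕ} {s : ℕ → St B} {Φ : (ℕ → A) → ℝ} {b : B} (hs : s i = .pin b)
    (hΦ : PosFun nb lv b0 c g m s Φ) : PosFun nb lv b0 c g m s (hval nb S δ lv b0 (.P b i) Φ) := by
  refine ⟨fun h hd => ?_, ?_⟩
  · rw [hval_P, if_pos (hd.2 i b hs)]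
    exact hΦ.1 h hd
  · rw [hval_P, if_pos (hst_pin s hs)]
    exact hΦ.2

/-- The projector applied to the constant function one. -/
theorem TLX_one (H : HGood nb S δ vt lv c g f) : ∀ (j : ℕ) (h : ℕ → A), IsP nb (lv b0) h →
    0 ≤ TLX (gE nb S (lv b0)) (2 * j) (fun _ => 1) h ∧
    ((∀ i, 1 ≤ i → i ≤ j → h (2 * i - 1) = h (2 * i + 1)) →
      0 < TLX (gE nb S (lv b0)) (2 * j) (fun _ => 1) h) ∧
    ((∃ i, 1 ≤ i ∧ i ≤ j ∧ h (2 * i - 1) ≠ h (2 * i + 1)) →
      TLX (gE nb S (lv b0)) (2 * j) (fun _ => 1) h = 0)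
  | 0, h, _ => by
    have : TLX (gE nb S (lv b0)) (2 * 0) (fun _ => 1) h = 1 := by simp [TLX]
    rw [this]
    refine ⟨zero_le_one, fun _ => one_pos, ?_⟩
    rintro ⟨i, h1, h2, _⟩
    omega
  | (j + 1), h, hp => by
    have IH := TLX_one H j
    have hap : TLX (gE nb S (lv b0)) (2 * (j + 1)) (fun _ => (1 : ℝ)) h =
        gE nb S (lv b0) (2 * j + 2) (TLX (gE nb S (lv b0)) (2 * j) (fun _ => 1)) h := rfl
    rw [hap]
    have hodd : ∀ x i, (Function.update h (2 * j + 2) x) (2 * i - 1) = h (2 * i - 1) := by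
      intro x i
      by_cases hi : i = 0
      · subst hi
        rw [Function.update_of_ne (by omega)]
      · rw [Function.update_of_ne (by omega)]
    have hodd' : ∀ x i, (Function.update h (2 * j + 2) x) (2 * i + 1) = h (2 * i + 1) := by
      intro x i
      rw [Function.update_of_ne (by omega)]
    by_cases he : h (2 * j + 1) = h (2 * j + 3)
    · have he' : h (2 * j + 2 - 1) = h (2 * j + 2 + 1) := by
        rw [show 2 * j + 2 - 1 = 2 * j + 1 by omega]; exact he
      rw [gE_eq _ _ hp he', show 2 * j + 2 - 1 = 2 * j + 1 by omega]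
      have hSb := H.pos (h (2 * j + 1))
      have hpath : ∀ x ∈ nb (h (2 * j + 1)), IsP nb (lv b0) (Function.update h (2 * j + 2) x) :=
        fun x hx => hp.upd H.toEig (by omega) he'
          (by rw [show 2 * j + 2 - 1 = 2 * j + 1 by omega]; exact hx)
      refine ⟨?_, fun hall => ?_, ?_⟩
      · apply div_nonneg _ hSb.le
        apply Finset.sum_nonneg
        intro x hx
        exact mul_nonneg (H.pos x).le (IH _ (hpath x hx)).1
      · apply div_pos _ hSb
        apply Finset.sum_pos
        · intro x hx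
          apply mul_pos (H.pos x)
          exact (IH _ (hpath x hx)).2.1 (fun i h1 h2 => by
            rw [hodd, hodd']; exact hall i h1 (by omega))
        · exact ⟨_, hp.2 (2 * j + 1)⟩
      · rintro ⟨i, h1, h2, h3⟩
        have hij : i ≤ j := by
          by_contra hcon
          have : i = j + 1 := by omega
          subst this
          exact h3 (by
            rw [show 2 * (j + 1) - 1 = 2 * j + 1 by omega,
              show 2 * (j + 1) + 1 = 2 * j + 3 by omega]; exact he)
        rw [Finset.sum_eq_zero, zero_div]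
        intro x hx
        rw [(IH _ (hpath x hx)).2.2 ⟨i, h1, hij, by rw [hodd, hodd']; exact h3⟩, mul_zero]
    · rw [gE_ne]
      · refine ⟨le_rfl, fun hall => ?_, fun _ => rfl⟩
        exact absurd (hall (j + 1) (by omega) le_rfl) (by
          rw [show 2 * (j + 1) - 1 = 2 * j + 1 by omega,
            show 2 * (j + 1) + 1 = 2 * j + 3 by omega]; exact he)
      · rw [show 2 * j + 2 - 1 = 2 * j + 1 by omega]
        exact he

theorem posFun_base (H : HGood nb S δ vt lv c g f) (m : ℕ) {s : ℕ → St B}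
    (h0 : s 0 = .pin b0) : PosFun nb lv b0 c g m s (TLX (gE nb S (lv b0)) (2 * m) (fun _ => 1)) := by
  refine ⟨fun h hd => ?_, ?_⟩
  · obtain ⟨h1, _, h3⟩ := TLX_one H m h hd.1
    by_cases hc : ∃ i, 1 ≤ i ∧ i ≤ m ∧ h (2 * i - 1) ≠ h (2 * i + 1)
    · rw [h3 hc, mul_zero]
    · have : gs m s h = 1 := by
        unfold gs
        apply Finset.prod_eq_one
        intro i hi
        rw [Finset.mem_Icc] at hi
        rw [if_pos]
        by_contra hne
        exact hc ⟨i, hi.1, hi.2, hne⟩
      rw [this, one_mul]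
      exact h1
  · exact (TLX_one H m _ (hst_dom H h0).1).2.1 (fun i h1 _ => by
      rw [hst_odd' s h1, hst_odd])

/-- The projector preserves positivity at reference configurations. -/
theorem TLX_pos (H : HGood nb S δ vt lv c g f) {m : ℕ} : ∀ (j : ℕ), j ≤ m →
    ∀ (Φ : (ℕ → A) → ℝ) (s : ℕ → St B), s 0 = .pin b0 →
    (∀ i, 1 ≤ i → i ≤ j → ∃ b, s i = .cls b) → PosFun nb lv b0 c g m s Φ →
      PosFun nb lv b0 c g m s (TLX (gE nb S (lv b0)) (2 * j) Φ)
  | 0, _, Φ, s, _, _, hΦ => by
    have hX : TLX (gE nb S (lv b0)) (2 * 0) Φ = Φ := by simp [TLX]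
    rw [hX]
    exact hΦ
  | (j + 1), hj, Φ, s, h0, hs, hΦ => by
    have IH := TLX_pos H j (by omega) Φ s h0 (fun i h1 h2 => hs i h1 (by omega)) hΦ
    obtain ⟨b, hb⟩ := hs (j + 1) (by omega) le_rfl
    have h2 : PosFun nb lv b0 c g m s
        (hval nb S δ lv b0 (.D (j + 1)) (TLX (gE nb S (lv b0)) (2 * j) Φ)) := by
      apply pos_D H h0 (b := b) _ (by omega) hj
      rw [← hb, Function.update_eq_self]
      exact IH
    have hδ0 : 0 < δ := by linarith [H.hδ]
    have hX : ∀ h, TLX (gE nb S (lv b0)) (2 * (j + 1)) Φ h =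
        gE nb S (lv b0) (2 * (j + 1)) (TLX (gE nb S (lv b0)) (2 * j) Φ) h := fun _ => rfl
    refine ⟨fun h hd => ?_, ?_⟩
    · have h3 := h2.1 h hd
      rw [hval_D] at h3
      rw [hX]
      have h4 : 0 ≤ δ * (gs m s h * gE nb S (lv b0) (2 * (j + 1)) (TLX (gE nb S (lv b0)) (2 * j) Φ) h) := by
        calc (0 : ℝ) ≤ gs m s h * (δ * gE nb S (lv b0) (2 * (j + 1))
              (TLX (gE nb S (lv b0)) (2 * j) Φ) h) := h3
          _ = _ := by ring
      exact nonneg_of_mul_nonneg_right h4 hδ0
    · have h3 := h2.2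
      rw [hval_D] at h3
      rw [hX]
      exact (pos_iff_pos_of_mul_pos h3).1 hδ0

section Grid

variable {V : Type} {G : SimpleGraph V} {r : V} {π : V → Option B} {K R : ℕ}
  {L : ℕ → ℕ → Option V}

/-- Status of a label. -/
def lsP (π : V → Option B) (cl : V → Bool) : Option V → St B
  | none => .cls true
  | some v => match π v with
    | some b => .pin b
    | none => .cls (cl v)

theorem lsP_some {π : V → Option B} {cl : V → Bool} {v : V} {b : B} (h : π v = some b) :
    lsP π cl (some v) = .pin b := by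
  simp only [lsP, h]

theorem lsP_none {π : V → Option B} {cl : V → Bool} {v : V} (h : π v = none) :
    lsP π cl (some v) = .cls (cl v) := by
  simp only [lsP, h]

/-- Mixed status: the first `n` sites have the status of row `j + 1`, the others of row `j`. -/
def mstP (π : V → Option B) (cl : V → Bool) (L : ℕ → ℕ → Option V) (j n : ℕ) (i : ℕ) : St B :=
  if i ≤ n then lsP π cl (L i (j + 1)) else lsP π cl (L i j)

theorem mstP_update (cl : V → Bool) (L : ℕ → ℕ → Option V) (j n : ℕ) :
    Function.update (mstP π cl L j n) (n + 1) (lsP π cl (L (n + 1) (j + 1))) =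
      mstP π cl L j (n + 1) := by
  funext i
  by_cases hi : i = n + 1
  · subst hi
    rw [Function.update_self]
    unfold mstP
    rw [if_pos le_rfl]
  · rw [Function.update_of_ne hi]
    unfold mstP
    by_cases h2 : i ≤ n
    · rw [if_pos h2, if_pos (by omega)]
    · rw [if_neg h2, if_neg (by omega)]

theorem lsP_pnl (cl : V → Bool) (a : Option V) :
    (∃ b, a.bind π = some b ∧ lsP π cl a = .pin b) ∨
      (a.bind π = none ∧ ∃ b, lsP π cl a = .cls b) := by
  cases a with
  | none => right; exact ⟨rfl, true, rfl⟩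
  | some v =>
    rw [Option.bind_some]
    cases h : π v with
    | none => right; exact ⟨rfl, cl v, lsP_none h⟩
    | some b => left; exact ⟨b, rfl, lsP_some h⟩

/-- Adjacent labels have different statuses. -/
theorem lsP_ne {cl : V → Bool} (hcl : PiOK G r b0 π cl) {a b : Option V} (h : ladj G a b) :
    lsP π cl a ≠ lsP π cl b := by
  obtain ⟨u, v, rfl, rfl, huv⟩ := h
  cases hu : π u with
  | some x =>
    rw [lsP_some hu]
    cases hv : π v with
    | some y =>
      rw [lsP_some hv]
      intro hh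
      exact hcl.pin u v x huv hu (by rw [hv, St.pin.inj hh])
    | none =>
      rw [lsP_none hv]
      intro hh
      cases hh
  | none =>
    rw [lsP_none hu]
    cases hv : π v with
    | some y =>
      rw [lsP_some hv]
      intro hh
      cases hh
    | none =>
      rw [lsP_none hv]
      intro hh
      exact hcl.cls u v huv hu hv (St.cls.inj hh)

/-- Value of a word in the height representation. -/
noncomputable def hW (nb : A → Finset A) (S : A → ℝ) (δ : ℝ) (lv : B → A) (b0 : B) (ops : List (OpP B)) :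
    Module.End ℝ ((ℕ → A) → ℝ) := WP (δ • 1) (δ⁻¹ • 1) (gE nb S (lv b0)) (gP lv) ops

theorem hW_append (a b : List (OpP B)) (Φ : (ℕ → A) → ℝ) :
    hW nb S δ lv b0 (a ++ b) Φ = hW nb S δ lv b0 a (hW nb S δ lv b0 b Φ) := by
  unfold hW
  rw [WP_append]
  rfl

theorem hW_nil (Φ : (ℕ → A) → ℝ) : hW nb S δ lv b0 [] Φ = Φ := by
  unfold hW
  rw [WP_nil]
  rfl

theorem hW_cons (x : OpP B) (b : List (OpP B)) (Φ : (ℕ → A) → ℝ) :
    hW nb S δ lv b0 (x :: b) Φ = hval nb S δ lv b0 x (hW nb S δ lv b0 b Φ) := by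
  unfold hW
  rw [WP_cons]
  rfl

theorem mstP_zero (hr : π r = some b0) {cl : V → Bool} (hcol : ∀ j, j ≤ R → L 0 j = some r)
    {j : ℕ} (hj : j < R) (n : ℕ) : mstP π cl L j n 0 = .pin b0 := by
  unfold mstP
  rw [if_pos (Nat.zero_le _), hcol (j + 1) (by omega), lsP_some hr]

theorem pos_step (H : HGood nb S δ vt lv c g f) {cl : V → Bool} (hcl : PiOK G r b0 π cl)
    (hcol : ∀ j, j ≤ R → L 0 j = some r) {j : ℕ} (hj : j < R) :
    ∀ (n : ℕ) (Φ : (ℕ → A) → ℝ), n ≤ K → PosFun nb lv b0 c g K (mstP π cl L j n) Φ →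
    PosFun nb lv b0 c g K (mstP π cl L j 0) (hW nb S δ lv b0 (stepW G L (S1 π K R L) j n) Φ)
  | 0, Φ, _, h => by
    have : stepW G L (S1 π K R L) j 0 = [] := rfl
    rw [this, hW_nil]
    exact h
  | (n + 1), Φ, hn, h => by
    have e : stepW G L (S1 π K R L) j (n + 1) = stepW G L (S1 π K R L) j n ++
      (vopP B G (n + 1) (L (n + 1) j) (L (n + 1) (j + 1)) ++
        pinP (n + 1) (S1 π K R L (n + 1) (j + 1))) := rfl
    rw [e, hW_append]
    apply pos_step H hcl hcol hj n _ (by omega)
    have h0 : mstP π cl L j n 0 = .pin b0 := mstP_zero hcl.root hcol hj n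
    have hS : S1 π K R L (n + 1) (j + 1) = (L (n + 1) (j + 1)).bind π := by
      unfold S1
      rw [if_pos ⟨by omega, hn, by omega, by omega⟩]
    have hcur : mstP π cl L j n (n + 1) = lsP π cl (L (n + 1) j) := by
      unfold mstP; rw [if_neg (by omega)]
    rw [hS]
    rw [← mstP_update] at h
    have hi1 : 1 ≤ n + 1 := by omega
    unfold vopP
    split_ifs with h1 h2
    · -- the label persists
      have e3 : Function.update (mstP π cl L j n) (n + 1)
          (lsP π cl (L (n + 1) (j + 1))) = mstP π cl L j n := by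
        rw [← h1.1, ← hcur, Function.update_eq_self]
      rw [e3] at h
      rw [List.nil_append]
      rcases lsP_pnl (π := π) cl (L (n + 1) (j + 1)) with ⟨b, hb1, hb2⟩ | ⟨hb1, _⟩
      · rw [hb1]
        have : pinP (n + 1) (some b) = [OpP.P b (n + 1)] := rfl
        rw [this, hW_cons, hW_nil]
        apply pos_P _ h
        rw [hcur, h1.1, hb2]
      · rw [hb1]
        have : pinP (B := B) (n + 1) none = [] := rfl
        rw [this, hW_nil]
        exact h
    · -- `V`
      have hne : mstP π cl L j n (n + 1) ≠ lsP π cl (L (n + 1) (j + 1)) := by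
        rw [hcur]; exact lsP_ne hcl h2
      rw [List.singleton_append, hW_cons]
      rcases lsP_pnl (π := π) cl (L (n + 1) (j + 1)) with ⟨b, hb1, hb2⟩ | ⟨hb1, b, hb2⟩
      · rw [hb1]
        have : pinP (n + 1) (some b) = [OpP.P b (n + 1)] := rfl
        rw [this, hW_cons, hW_nil]
        rw [hb2] at h hne
        exact pos_VP H h0 hne h hi1 hn
      · rw [hb1]
        have : pinP (B := B) (n + 1) none = [] := rfl
        rw [this, hW_nil]
        rw [hb2] at h hne
        exact pos_V H h0 hne h hi1 hn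
    · -- `D`
      rw [List.singleton_append, hW_cons]
      rcases lsP_pnl (π := π) cl (L (n + 1) (j + 1)) with ⟨b, hb1, hb2⟩ | ⟨hb1, b, hb2⟩
      · rw [hb1]
        have : pinP (n + 1) (some b) = [OpP.P b (n + 1)] := rfl
        rw [this, hW_cons, hW_nil]
        rw [hb2] at h
        exact pos_DP H h0 h hi1 hn
      · rw [hb1]
        have : pinP (B := B) (n + 1) none = [] := rfl
        rw [this, hW_nil]
        rw [hb2] at h
        exact pos_D H h0 h hi1 hn

theorem pos_hor (H : HGood nb S δ vt lv c g f) {cl : V → Bool} (hcl : PiOK G r b0 π cl)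
    {j : ℕ} (s : ℕ → St B) (hs : ∀ i, i ≤ K → s i = lsP π cl (L i j)) (h0 : s 0 = .pin b0) :
    ∀ (n : ℕ) (Φ : (ℕ → A) → ℝ), n ≤ K → PosFun nb lv b0 c g K s Φ →
    PosFun nb lv b0 c g K s (hW nb S δ lv b0 (horW B G L j n) Φ)
  | 0, Φ, _, h => by
    have : horW B G L j 0 = [] := rfl
    rw [this, hW_nil]
    exact h
  | (n + 1), Φ, hn, h => by
    have e : horW B G L j (n + 1) = horW B G L j n ++ hopP B G n (L n j) (L (n + 1) j) := rfl
    rw [e, hW_append]
    apply pos_hor H hcl s hs h0 n _ (by omega)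
    unfold hopP
    split_ifs with h1 h2
    · rw [hW_cons, hW_nil]
      apply pos_J H h0 h hn
      rw [hs n (by omega), hs (n + 1) hn, h1.1]
    · rw [hW_cons, hW_nil]
      apply pos_H H h0 h hn
      rw [hs n (by omega), hs (n + 1) hn]
      exact lsP_ne hcl h2
    · rw [hW_nil]
      exact h

theorem pos_body (H : HGood nb S δ vt lv c g f) {cl : V → Bool} (hcl : PiOK G r b0 π cl)
    (hcol : ∀ j, j ≤ R → L 0 j = some r) (hout : ∀ i j, K < i → L i j = none) :
    ∀ (n : ℕ) (Φ : (ℕ → A) → ℝ), n ≤ R →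
    PosFun nb lv b0 c g K (fun i => lsP π cl (L i n)) Φ →
    PosFun nb lv b0 c g K (fun i => lsP π cl (L i 0))
      (hW nb S δ lv b0 (bodyW G L (S1 π K R L) K n) Φ)
  | 0, Φ, _, h => by
    have : bodyW G L (S1 π K R L) K 0 = [] := rfl
    rw [this, hW_nil]
    exact h
  | (n + 1), Φ, hn, h => by
    have e : bodyW G L (S1 π K R L) K (n + 1) = bodyW G L (S1 π K R L) K n ++
      (stepW G L (S1 π K R L) n K ++ horW B G L (n + 1) K) := rfl
    rw [e, hW_append, hW_append]
    apply pos_body H hcl hcol hout n _ (by omega)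
    have e0 : (fun i => lsP π cl (L i n)) = mstP π cl L n 0 := by
      funext i
      unfold mstP
      by_cases hi : i ≤ 0
      · have : i = 0 := by omega
        subst this
        rw [if_pos le_rfl, hcol n (by omega), hcol (n + 1) hn]
      · rw [if_neg hi]
    have e1 : (fun i => lsP π cl (L i (n + 1))) = mstP π cl L n K := by
      funext i
      unfold mstP
      by_cases hi : i ≤ K
      · rw [if_pos hi]
      · rw [if_neg hi, hout i n (by omega), hout i (n + 1) (by omega)]
    rw [e0]
    apply pos_step H hcl hcol (by omega) K _ le_rfl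
    rw [← e1]
    apply pos_hor H hcl _ (fun i _ => rfl) _ K _ le_rfl h
    show lsP π cl (L 0 (n + 1)) = _
    rw [hcol (n + 1) hn, lsP_some hcl.root]

theorem stepW_congr {L' : ℕ → ℕ → Option V} {S' S'' : ℕ → ℕ → Option B} {j : ℕ} :
    ∀ n : ℕ, (∀ i, i ≤ n → L i j = L' i j ∧ L i (j + 1) = L' i (j + 1) ∧
      S' i (j + 1) = S'' i (j + 1)) → stepW G L S' j n = stepW G L' S'' j n
  | 0, _ => rfl
  | (n + 1), h => by
    have e : ∀ (L : ℕ → ℕ → Option V) (S' : ℕ → ℕ → Option B), stepW G L S' j (n + 1) =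
      stepW G L S' j n ++ (vopP B G (n + 1) (L (n + 1) j) (L (n + 1) (j + 1)) ++
        pinP (n + 1) (S' (n + 1) (j + 1))) := fun _ _ => rfl
    obtain ⟨h1, h2, h3⟩ := h (n + 1) le_rfl
    rw [e, e, stepW_congr n (fun i hi => h i (by omega)), h1, h2, h3]

theorem horW_congr {L' : ℕ → ℕ → Option V} {j : ℕ} :
    ∀ n : ℕ, (∀ i, i ≤ n → L i j = L' i j) → horW B G L j n = horW B G L' j n
  | 0, _ => rfl
  | (n + 1), h => by
    have e : ∀ (L : ℕ → ℕ → Option V), horW B G L j (n + 1) =
      horW B G L j n ++ hopP B G n (L n j) (L (n + 1) j) := fun _ => rfl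
    rw [e, e, horW_congr n (fun i hi => h i (by omega)), h n (by omega), h (n + 1) le_rfl]

theorem bodyW_congr {L' : ℕ → ℕ → Option V} {S' S'' : ℕ → ℕ → Option B} :
    ∀ n : ℕ, (∀ i j, i ≤ K → j ≤ n → L i j = L' i j ∧ S' i j = S'' i j) →
      bodyW G L S' K n = bodyW G L' S'' K n
  | 0, _ => rfl
  | (n + 1), h => by
    have e : ∀ (L : ℕ → ℕ → Option V) (S' : ℕ → ℕ → Option B), bodyW G L S' K (n + 1) =
      bodyW G L S' K n ++ (stepW G L S' n K ++ horW B G L (n + 1) K) := fun _ _ => rfl
    rw [e, e, bodyW_congr n (fun i j hi hj => h i j hi (by omega)),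
      stepW_congr K (fun i hi => ⟨(h i n hi (by omega)).1, (h i (n + 1) hi le_rfl).1,
        (h i (n + 1) hi le_rfl).2⟩), horW_congr K (fun i hi => (h i (n + 1) hi le_rfl).1)]

end Grid

end

theorem height_posP {A B : Type} [DecidableEq A] {nb : A → Finset A} {S : A → ℝ} {δ : ℝ}
    {vt : A → Prop} {lv : B → A} {c g f : A} (H : HGood nb S δ vt lv c g f) {b0 : B} {V : Type}
    {G : SimpleGraph V} {r : V} {K R : ℕ}
    {L : ℕ → ℕ → Option V} (hcol : ∀ j, j ≤ R → L 0 j = some r)
    (hrow : ∀ i, 1 ≤ i → i ≤ K → L i 0 = none) {π : V → Option B} {cl : V → Bool}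
    (hπ : PiOK G r b0 π cl) {K' : ℕ} {x : ℝ}
    (hx : δ ^ K' • (TLX (gE nb S (lv b0)) (2 * K) * WP (δ • 1) (δ⁻¹ • 1) (gE nb S (lv b0)) (gP lv)
        (bodyW G L (S1 π K R L) K R) * TLX (gE nb S (lv b0)) (2 * K)) =
        x • TLX (gE nb S (lv b0)) (2 * K)) :
    0 < x := by
  set L' : ℕ → ℕ → Option V := fun i j => if i ≤ K then L i j else none with hL'
  have hLL : ∀ i j, i ≤ K → L i j = L' i j := by
    intro i j hi
    rw [hL']
    simp only
    rw [if_pos hi]
  have hbody : bodyW G L (S1 π K R L) K R = bodyW G L' (S1 π K R L') K R := by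
    apply bodyW_congr
    intro i j hi _
    refine ⟨hLL i j hi, ?_⟩
    unfold S1
    rw [hLL i j hi]
  rw [hbody] at hx
  have hcol' : ∀ j, j ≤ R → L' 0 j = some r := fun j hj => by
    rw [← hLL 0 j (Nat.zero_le _)]; exact hcol j hj
  have hout : ∀ i j, K < i → L' i j = none := by
    intro i j hi
    rw [hL']
    simp only
    rw [if_neg (by omega)]
  set s : ℕ → St B := fun i => lsP π cl (L' i 0) with hs
  have h0 : s 0 = .pin b0 := by
    rw [hs]
    simp only
    rw [hcol' 0 (Nat.zero_le _), lsP_some hπ.root]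
  have hR0 : (fun i => lsP π cl (L' i R)) 0 = .pin b0 := by
    show lsP π cl (L' 0 R) = _
    rw [hcol' R le_rfl, lsP_some hπ.root]
  have h1 := pos_body (K := K) (G := G) H hπ hcol' hout R _ le_rfl (posFun_base H K hR0)
  have h2 := TLX_pos H K le_rfl _ s h0 (fun i hi1 hi2 => ⟨true, by
    rw [hs]
    simp only
    rw [← hLL i 0 hi2, hrow i hi1 hi2]
    rfl⟩) h1
  have h3 := congrArg (fun (F : Module.End ℝ ((ℕ → A) → ℝ)) =>
    F (fun _ => 1) (hst lv c g s)) hx
  have h4 : (δ ^ K' • (TLX (gE nb S (lv b0)) (2 * K) * WP (δ • 1) (δ⁻¹ • 1) (gE nb S (lv b0)) (gP lv)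
        (bodyW G L' (S1 π K R L') K R) * TLX (gE nb S (lv b0)) (2 * K)) :
        Module.End ℝ ((ℕ → A) → ℝ)) (fun _ => 1) (hst lv c g s) =
      δ ^ K' * TLX (gE nb S (lv b0)) (2 * K) (hW nb S δ lv b0 (bodyW G L' (S1 π K R L') K R)
        (TLX (gE nb S (lv b0)) (2 * K) (fun _ => 1))) (hst lv c g s) := rfl
  have h5 : (x • TLX (gE nb S (lv b0)) (2 * K) : Module.End ℝ ((ℕ → A) → ℝ)) (fun _ => 1)
      (hst lv c g s) = x * TLX (gE nb S (lv b0)) (2 * K) (fun _ => 1) (hst lv c g s) := rfl
  have h6 : δ ^ K' * TLX (gE nb S (lv b0)) (2 * K) (hW nb S δ lv b0 (bodyW G L' (S1 π K R L') K R)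
        (TLX (gE nb S (lv b0)) (2 * K) (fun _ => 1))) (hst lv c g s) =
      x * TLX (gE nb S (lv b0)) (2 * K) (fun _ => 1) (hst lv c g s) := h4.symm.trans (h3.trans h5)
  have h7 := h2.2
  have h8 := (posFun_base H K h0).2
  have hδ0 : 0 < δ := by linarith [H.hδ]
  have h9 : 0 < δ ^ K' * TLX (gE nb S (lv b0)) (2 * K) (hW nb S δ lv b0
      (bodyW G L' (S1 π K R L') K R) (TLX (gE nb S (lv b0)) (2 * K) (fun _ => 1)))
      (hst lv c g s) := mul_pos (pow_pos hδ0 K') h7
  rw [h6] at h9
  exact (pos_iff_pos_of_mul_pos h9).2 h8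

end Pool.Agent.Helper55.BLE.W
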