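import Mathlib
import Pool.Agent.Helper55.BLE.Base
import Pool.Agent.Gold.W.PTransfer
import Pool.Agent.Gold.W.HPos

/-!
Positivity of the chromatic polynomial from a labelled grid with a set of special vertices, at every
real number for which a suitable graph of heights exists.
-/

set_option autoImplicit false

namespace Pool.Agent.Helper55.BLE.W

open Pool.Agent.Helper70.BLB Polynomial
open Pool.Agent.Helper55.BLD

/-- There is a graph of heights with leaves `B` and eigenvalue the square root of `q`. -/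
def Heights (B : Type) (q : ℝ) : Prop :=
  ∃ (A : Type) (_ : DecidableEq A) (nb : A → Finset A) (S : A → ℝ) (vt : A → Prop)
      (lv : B → A) (c g f : A), HGood nb S (Real.sqrt q) vt lv c g f

/-- Positivity of the extension polynomial of a pattern on the pinned vertices. -/
theorem ext_posLG {V B : Type} [Fintype V] [Fintype B] [DecidableEq B] {G : SimpleGraph V} {r : V}
    {K R : ℕ} {L : ℕ → ℕ → Option V} (M : LG G r K R L) {π : V → Option B} {b0 : B}
    {cl : V → Bool} (hπ : PiOK G r b0 π cl) (hct : Contact π r K R L)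
    {q : ℝ} (hH : Heights B q) (p : ℝ[X])
    (hp : ∀ n : ℕ, p.eval ((Fintype.card B : ℝ) + n) =
      (Nat.card {f : G.Coloring (B ⊕ Fin n) // ∀ v b, π v = some b → f v = Sum.inl b} : ℝ)) :
    0 < p.eval q := by
  classical
  have : Nonempty B := ⟨b0⟩
  obtain ⟨A, hdec, nb, S, vt, lv, c, g, f, H⟩ := hH
  set δ : ℝ := Real.sqrt q with hδdef
  have hδ0 : 0 < δ := H.hδ
  have hδ2 : δ ^ 2 = q := by
    rw [hδdef]
    exact Real.sq_sqrt (Real.sqrt_pos.1 hδ0).le
  choose τ hτ hτ0 using fun n => exists_tau B b0 n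
  obtain ⟨Q, K', hcolr, hhe⟩ := transferP H b0 τ hτ K hct.1 (bodyW G L (S0 π R L) K R)
    (bodyW_ok R)
  rw [body_pins (gP_rel H b0) M hπ.root hct] at hhe
  have hQ : 0 < Q.eval δ := height_posP H M.col M.row hπ hhe
  obtain ⟨a, b, hcount⟩ := count_LG M hπ.root hct
  have key : (X ^ (K' + 2 * a) * p.comp (X ^ 2) : ℝ[X]) = Q * X ^ (2 * b + K) := by
    apply Polynomial.eq_of_infinite_eval_eq
    apply Set.Infinite.mono _ (Set.infinite_range_of_injective (bδ_inj B))
    rintro _ ⟨n, rfl⟩
    show eval (bδ B n) (X ^ (K' + 2 * a) * p.comp (X ^ 2)) = eval (bδ B n) _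
    have hcard : (bδ B n) ^ 2 = Fintype.card (B ⊕ Fin n) := by
      rw [bδ_sq, Fintype.card_sum, Fintype.card_fin]; push_cast; ring
    have h2 := color_evalP (C := B ⊕ Fin n) (τ := τ n) (bδ_pos n) hcard (hcolr n)
      (fun _ => Sum.inl b0)
    have h3 := hcount (B ⊕ Fin n) (τ n) (hτ n) (fun _ => Sum.inl b0)
    have h4 : (Nat.card {f : G.Coloring (B ⊕ Fin n) // ∀ v b, π v = some b →
        f v = τ n b (Sum.inl b0)} : ℝ) = p.eval ((Fintype.card B : ℝ) + n) := by
      rw [hp n]
      congr 1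
      apply Nat.card_congr
      apply Equiv.subtypeEquivRight
      intro f
      simp only [hτ0]
    rw [h4, ← hcard] at h3
    rw [eval_mul, eval_mul, eval_comp, eval_pow, eval_pow, eval_pow, eval_X, bδ_sq]
    set y : ℝ := bδ B n with hy
    set F : ℝ := cS (B ⊕ Fin n) K (cWP (B ⊕ Fin n) (τ n)
      (bodyW G L (S0 π R L) K R) fun _ => 1) fun _ => Sum.inl b0 with hF
    -- h2 : y ^ K' * F = Q y * y ^ K,  h3 : (y^2)^b * F = (y^2)^a * p (|B| + n)
    have h8 : y ^ (K' + 2 * a) * p.eval ((Fintype.card B : ℝ) + n) =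
        y ^ K' * ((y ^ 2) ^ a * p.eval ((Fintype.card B : ℝ) + n)) := by
      rw [pow_add, pow_mul]; ring
    rw [h8, ← h3]
    have h9 : y ^ K' * ((y ^ 2) ^ b * F) = (y ^ 2) ^ b * (y ^ K' * F) := by ring
    rw [h9, h2, pow_add, pow_mul]
    ring
  have h6 := congrArg (fun P : ℝ[X] => P.eval δ) key
  simp only [eval_mul, eval_pow, eval_X, eval_comp, hδ2] at h6
  have h8 : 0 < δ ^ (K' + 2 * a) * p.eval q := by
    rw [h6]; positivity
  exact (pos_iff_pos_of_mul_pos h8).1 (by positivity)

/-- Positivity of the chromatic polynomial from a labelled grid, the special vertices `T`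
containing the root and `cl` being a two-colouring of the other vertices. -/
theorem base_posT {V : Type} [Fintype V] [DecidableEq V] {G : SimpleGraph V} {r : V}
    {T : Finset V} (hr : r ∈ T) {K R : ℕ} {L : ℕ → ℕ → Option V} (M : LG G r K R L)
    (hct : ContT T r K R L) {cl : V → Bool}
    (hcl : ∀ u v, u ∉ T → v ∉ T → G.Adj u v → cl u ≠ cl v) {n : ℕ} (hn : 1 ≤ n)
    (hT : T.card ≤ n) {q : ℝ} (hH : Heights (Fin n) q) (hq : (n : ℝ) - 1 < q) (p : ℝ[X])
    (hp : ∀ N : ℕ, p.eval (N : ℝ) = nc G N) : 0 < p.eval q := by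
  have hne : Nonempty (Fin n) := ⟨⟨0, by omega⟩⟩
  apply pos_of_proper_patterns (A := Fin n) T (by rw [Fintype.card_fin]; exact hT)
    (by rw [Fintype.card_fin]; exact hq) _ p hp
  intro c hc p hp
  have hsome : ∀ v b, (if v ∈ T then some (c v) else none) = some b ↔ v ∈ T ∧ c v = b := by
    intro v b
    split_ifs with h
    · simp [h]
    · simp [h]
  have hnone : ∀ v, (if v ∈ T then some (c v) else none) = none ↔ v ∉ T := by
    intro v
    split_ifs with h
    · simp [h]
    · simp [h]
  have hπ : PiOK G r (c r) (fun v => if v ∈ T then some (c v) else none) cl := by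
    refine ⟨if_pos hr, fun u v b huv hu hv => ?_, fun u v huv hu hv => ?_⟩
    · obtain ⟨h1, h2⟩ := (hsome u b).1 hu
      obtain ⟨h3, h4⟩ := (hsome v b).1 hv
      exact hc u v huv h1 h3 (h2.trans h4.symm)
    · exact hcl u v ((hnone u).1 hu) ((hnone v).1 hv) huv
  have hct' : Contact (fun v => if v ∈ T then some (c v) else none) r K R L := by
    refine ⟨hct.1, fun v hv h => ?_⟩
    have hvT : v ∈ T := by
      by_contra hcon
      exact h ((hnone v).2 hcon)
    exact hct.2 v hvT hv
  refine ext_posLG M hπ hct' hH p ?_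
  intro m
  rw [hp m]
  unfold extN
  congr 1
  apply Nat.card_congr
  apply Equiv.subtypeEquivRight
  intro F
  constructor
  · intro h v b hvb
    obtain ⟨h1, h2⟩ := (hsome v b).1 hvb
    rw [h v h1, h2]
  · intro h v hv
    exact h v (c v) ((hsome v (c v)).2 ⟨hv, rfl⟩)

end Pool.Agent.Helper55.BLE.W
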