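import Mathlib
import Pool.Agent.Gold.W.Base

/-!
Dynkin diagrams of type `A` and `D` as graphs of heights.
-/

set_option autoImplicit false

namespace Pool.Agent.Helper55.BLE.W

open Pool.Agent.Helper55.BLD

/-- Adjacency of a path with `M` vertices and leaves `B` at its first vertex. -/
def dAdj (B : Type) (M : ℕ) : B ⊕ Fin M → B ⊕ Fin M → Prop
  | .inl _, .inl _ => False
  | .inl _, .inr k => k.val = 0
  | .inr k, .inl _ => k.val = 0
  | .inr j, .inr k => j.val + 1 = k.val ∨ k.val + 1 = j.val

instance (B : Type) (M : ℕ) (x y : B ⊕ Fin M) : Decidable (dAdj B M x y) := by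
  rcases x with x | x <;> rcases y with y | y <;> unfold dAdj <;> infer_instance

/-- Neighbours. -/
def dNb (B : Type) [Fintype B] (M : ℕ) (x : B ⊕ Fin M) : Finset (B ⊕ Fin M) :=
  Finset.univ.filter (fun y => dAdj B M x y)

/-- The eigenvector. -/
noncomputable def dS (B : Type) (M : ℕ) (θ : ℝ) : B ⊕ Fin M → ℝ
  | .inl _ => Real.sin (M * θ) / (2 * Real.cos θ)
  | .inr k => Real.sin (((M : ℝ) - k.val) * θ)

/-- Vertex heights. -/
def dVt (B : Type) (M : ℕ) : B ⊕ Fin M → Prop
  | .inl _ => True
  | .inr k => k.val % 2 = 1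

theorem mem_dNb {B : Type} [Fintype B] {M : ℕ} (x y : B ⊕ Fin M) :
    y ∈ dNb B M x ↔ dAdj B M x y := by
  simp [dNb]

theorem dAdj_symm {B : Type} {M : ℕ} (x y : B ⊕ Fin M) (h : dAdj B M x y) : dAdj B M y x := by
  rcases x with x | x <;> rcases y with y | y <;> unfold dAdj at * <;> first | exact h | omega

theorem sum_fin_ite {M : ℕ} (f : ℕ → ℝ) (k : ℕ) (hk : 1 ≤ k) (hkM : k < M) (hf : f M = 0) :
    ∑ j : Fin M, (if k + 1 = j.val ∨ j.val + 1 = k then f j.val else 0) = f (k + 1) + f (k - 1) := by
  rw [Fin.sum_univ_eq_sum_range (fun j => if k + 1 = j ∨ j + 1 = k then f j else 0) M]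
  have h1 : ∑ j ∈ Finset.range M, (if k + 1 = j ∨ j + 1 = k then f j else 0) =
      ∑ j ∈ Finset.range (M + 1), (if k + 1 = j ∨ j + 1 = k then f j else 0) := by
    rw [Finset.sum_range_succ, hf, ite_self, add_zero]
  rw [h1, ← Finset.sum_filter]
  have h2 : (Finset.range (M + 1)).filter (fun j => k + 1 = j ∨ j + 1 = k) = {k + 1, k - 1} := by
    ext j
    simp only [Finset.mem_filter, Finset.mem_range, Finset.mem_insert, Finset.mem_singleton]
    omega
  rw [h2, Finset.sum_pair (by omega)]

theorem dynkin {B : Type} [Fintype B] [DecidableEq B] {M : ℕ} (hM : 3 ≤ M) {θ : ℝ}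
    (h0 : 0 < θ) (h1 : M * θ < Real.pi) (h2 : θ < Real.pi / 2)
    (hc : (4 * Real.cos θ ^ 2 - Fintype.card B) * Real.sin (M * θ) =
      2 * Real.cos θ * Real.sin ((M - 1) * θ)) :
    Heights B (4 * Real.cos θ ^ 2) := by
  have hcos : 0 < Real.cos θ := Real.cos_pos_of_mem_Ioo ⟨by linarith [Real.pi_pos], h2⟩
  have hsq : Real.sqrt (4 * Real.cos θ ^ 2) = 2 * Real.cos θ := by
    rw [show 4 * Real.cos θ ^ 2 = (2 * Real.cos θ) ^ 2 by ring]
    exact Real.sqrt_sq (by positivity)
  have hMpos : 0 < M := by omega
  have hsin : ∀ k : ℕ, k < M → 0 < Real.sin (((M : ℝ) - k) * θ) := by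
    intro k hk
    have hk' : (k : ℝ) < M := by exact_mod_cast hk
    have hk0 : (0 : ℝ) ≤ k := Nat.cast_nonneg k
    apply Real.sin_pos_of_pos_of_lt_pi
    · exact mul_pos (by linarith) h0
    · nlinarith
  have hsM : 0 < Real.sin (M * θ) := by
    have := hsin 0 hMpos
    simpa using this
  refine ⟨B ⊕ Fin M, inferInstance, dNb B M, dS B M θ, dVt B M, Sum.inl, .inr ⟨0, by omega⟩,
    .inr ⟨1, by omega⟩, .inr ⟨2, by omega⟩, ?_⟩
  rw [hsq]
  refine
    { symm := fun a b h => by rw [mem_dNb] at *; exact dAdj_symm _ _ h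
      pos := ?_
      eig := ?_
      hδ := by positivity
      nlv := ?_
      linj := Sum.inl_injective
      vlv := fun b => trivial
      vnb := ?_
      fnb := ?_
      card := ?_
      ng := ?_
      cf := by simp
      gl := by simp }
  · rintro (b | k)
    · exact div_pos hsM (by positivity)
    · exact hsin k.val k.isLt
  · intro a
    rw [dNb, Finset.sum_filter, Fintype.sum_sum_type]
    rcases a with b | k
    · -- a leaf
      have e1 : ∑ x : B, (if dAdj B M (Sum.inl b) (Sum.inl x) then dS B M θ (Sum.inl x) else 0) =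
          0 := Finset.sum_eq_zero fun x _ => if_neg (fun h => h)
      have e2 : ∑ x : Fin M, (if dAdj B M (Sum.inl b) (Sum.inr x) then dS B M θ (Sum.inr x)
          else 0) = Real.sin (M * θ) := by
        rw [Finset.sum_eq_single (⟨0, hMpos⟩ : Fin M)]
        · rw [if_pos (show dAdj B M (Sum.inl b) (Sum.inr ⟨0, hMpos⟩) from rfl)]
          simp [dS]
        · intro x _ hx
          rw [if_neg]
          intro h
          exact hx (Fin.ext h)
        · simp
      rw [e1, e2, zero_add]
      simp only [dS]
      field_simp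
    · by_cases hk : k.val = 0
      · have e1 : ∑ x : B, (if dAdj B M (Sum.inr k) (Sum.inl x) then dS B M θ (Sum.inl x)
            else 0) = Fintype.card B * (Real.sin (M * θ) / (2 * Real.cos θ)) := by
          rw [Finset.sum_congr rfl (fun x _ => if_pos (show dAdj B M (Sum.inr k) (Sum.inl x)
            from hk))]
          simp only [dS, Finset.sum_const, nsmul_eq_mul, Finset.card_univ]
        have e2 : ∑ x : Fin M, (if dAdj B M (Sum.inr k) (Sum.inr x) then dS B M θ (Sum.inr x)
            else 0) = Real.sin ((M - 1) * θ) := by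
          rw [Finset.sum_eq_single (⟨1, by omega⟩ : Fin M)]
          · rw [if_pos (show dAdj B M (Sum.inr k) (Sum.inr ⟨1, by omega⟩) from
              Or.inl (by rw [hk]))]
            simp [dS]
          · intro x _ hx
            rw [if_neg]
            intro h
            apply hx
            apply Fin.ext
            show x.val = 1
            have h' : k.val + 1 = x.val ∨ x.val + 1 = k.val := h
            omega
          · simp
        rw [e1, e2]
        simp only [dS]
        rw [hk, Nat.cast_zero, sub_zero]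
        have hc' : Real.sin ((M - 1) * θ) = (4 * Real.cos θ ^ 2 - Fintype.card B) *
            Real.sin (M * θ) / (2 * Real.cos θ) := by
          rw [hc]; field_simp
        rw [hc']
        field_simp
        ring
      · have e1 : ∑ x : B, (if dAdj B M (Sum.inr k) (Sum.inl x) then dS B M θ (Sum.inl x)
            else 0) = 0 := Finset.sum_eq_zero fun x _ => if_neg (fun h => hk h)
        have e2 : ∑ x : Fin M, (if dAdj B M (Sum.inr k) (Sum.inr x) then dS B M θ (Sum.inr x)
            else 0) = Real.sin (((M : ℝ) - (k.val + 1 : ℕ)) * θ) +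
              Real.sin (((M : ℝ) - (k.val - 1 : ℕ)) * θ) := by
          have h3 := sum_fin_ite (M := M) (fun j => Real.sin (((M : ℝ) - j) * θ)) k.val
            (by omega) k.isLt (by simp)
          rw [← h3]
          apply Finset.sum_congr rfl
          intro x _
          rfl
        rw [e1, e2, zero_add]
        simp only [dS]
        rw [Nat.cast_sub (by omega)]
        push_cast
        have h3 : ((M : ℝ) - (k.val + 1)) * θ = ((M : ℝ) - k.val) * θ - θ := by ring
        have h4 : ((M : ℝ) - (k.val - 1)) * θ = ((M : ℝ) - k.val) * θ + θ := by ring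
        rw [h3, h4, Real.sin_sub, Real.sin_add]
        ring
  · intro b
    ext x
    rw [mem_dNb, Finset.mem_singleton]
    rcases x with x | x
    · simp [dAdj]
    · simp [dAdj, Fin.ext_iff]
  · rintro (a | a) ha (b | b) h
    · rw [mem_dNb] at h; exact h.elim
    · rw [mem_dNb] at h
      intro hb
      have h' : b.val = 0 := h
      have hb' : b.val % 2 = 1 := hb
      omega
    · rw [mem_dNb] at h
      have h' : a.val = 0 := h
      have ha' : a.val % 2 = 1 := ha
      omega
    · rw [mem_dNb] at h
      intro hb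
      have h' : a.val + 1 = b.val ∨ b.val + 1 = a.val := h
      have hb' : b.val % 2 = 1 := hb
      have ha' : a.val % 2 = 1 := ha
      omega
  · rintro (a | a) ha (b | b) h
    · trivial
    · exact absurd trivial ha
    · trivial
    · rw [mem_dNb] at h
      have h' : a.val + 1 = b.val ∨ b.val + 1 = a.val := h
      have ha' : ¬ a.val % 2 = 1 := ha
      show b.val % 2 = 1
      omega
  · rintro (a | a) ha
    · have h3 : dNb B M (Sum.inl a) ⊆ {Sum.inr ⟨0, hMpos⟩} := by
        intro x hx
        rw [mem_dNb] at hx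
        rcases x with x | x
        · exact hx.elim
        · rw [Finset.mem_singleton]
          congr 1
          exact Fin.ext hx
      exact (Finset.card_le_card h3).trans (by simp)
    · have ha' : a.val % 2 = 1 := ha
      have h3 : dNb B M (Sum.inr a) ⊆ (({a.val + 1, a.val - 1} : Finset ℕ).attach.image
          (fun j => (if h : j.val < M then Sum.inr ⟨j.val, h⟩ else Sum.inr ⟨0, hMpos⟩ :
            B ⊕ Fin M))) := by
        intro x hx
        rw [mem_dNb] at hx
        rcases x with x | x
        · have : a.val = 0 := hx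
          omega
        · have h' : a.val + 1 = x.val ∨ x.val + 1 = a.val := hx
          rw [Finset.mem_image]
          refine ⟨⟨x.val, ?_⟩, Finset.mem_attach _ _, ?_⟩
          · rw [Finset.mem_insert, Finset.mem_singleton]
            omega
          · rw [dif_pos x.isLt]
      refine (Finset.card_le_card h3).trans (Finset.card_image_le.trans ?_)
      rw [Finset.card_attach]
      exact Finset.card_le_two
  · ext x
    rw [mem_dNb, Finset.mem_insert, Finset.mem_singleton]
    rcases x with x | x
    · simp [dAdj]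
    · simp only [dAdj, Sum.inr.injEq, Fin.ext_iff]
      omega

/-- The Dynkin diagram `A (n - 1)`. -/
theorem heights_A {B : Type} [Fintype B] [DecidableEq B] (hB : Fintype.card B = 1) {n : ℕ}
    (hn : 5 ≤ n) : Heights B (4 * Real.cos (Real.pi / n) ^ 2) := by
  have hπ := Real.pi_pos
  have hn' : (5 : ℝ) ≤ n := by exact_mod_cast hn
  obtain ⟨M, rfl⟩ : ∃ M, n = M + 2 := ⟨n - 2, by omega⟩
  push_cast at hn' ⊢
  have hM : (3 : ℝ) ≤ M := by linarith
  set θ : ℝ := Real.pi / (M + 2) with hθ
  have h1 : (M + 2) * θ = Real.pi := by rw [hθ]; field_simp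
  have h0 : 0 < θ := by rw [hθ]; positivity
  apply dynkin (M := M) (by exact_mod_cast hM) h0
  · nlinarith
  · nlinarith
  · rw [hB]
    have e1 : Real.sin (M * θ) = Real.sin (2 * θ) := by
      rw [show M * θ = Real.pi - 2 * θ by linarith, Real.sin_pi_sub]
    have e2 : Real.sin ((M - 1) * θ) = Real.sin (3 * θ) := by
      rw [show (M - 1) * θ = Real.pi - 3 * θ by linarith, Real.sin_pi_sub]
    rw [e1, e2, Real.sin_two_mul, Real.sin_three_mul]
    have h3 := Real.sin_sq_add_cos_sq θ
    have h4 : Real.sin θ ^ 2 = 1 - Real.cos θ ^ 2 := by linarith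
    have h5 : Real.sin θ ^ 3 = Real.sin θ * (1 - Real.cos θ ^ 2) := by rw [← h4]; ring
    rw [h5]
    push_cast
    ring

/-- The Dynkin diagram `D (n / 2 + 1)`, `n = 2 M + 2`. -/
theorem heights_D {B : Type} [Fintype B] [DecidableEq B] (hB : Fintype.card B = 2) {M : ℕ}
    (hM : 3 ≤ M) : Heights B (4 * Real.cos (Real.pi / (2 * M + 2 : ℕ)) ^ 2) := by
  have hπ := Real.pi_pos
  have hM' : (3 : ℝ) ≤ M := by exact_mod_cast hM
  push_cast
  set θ : ℝ := Real.pi / (2 * M + 2) with hθ
  have h1 : (2 * M + 2) * θ = Real.pi := by rw [hθ]; field_simp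
  have h0 : 0 < θ := by rw [hθ]; positivity
  apply dynkin (M := M) hM h0
  · nlinarith
  · nlinarith
  · rw [hB]
    have e1 : Real.sin (M * θ) = Real.cos θ := by
      rw [show M * θ = Real.pi / 2 - θ by linarith, Real.sin_pi_div_two_sub]
    have e2 : Real.sin ((M - 1) * θ) = Real.cos (2 * θ) := by
      rw [show (M - 1) * θ = Real.pi / 2 - 2 * θ by linarith, Real.sin_pi_div_two_sub]
    rw [e1, e2, Real.cos_two_mul]
    push_cast
    ring

end Pool.Agent.Helper55.BLE.W
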