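import Mathlib
import Pool.Agent.Helper55.BLE.HubN
import Pool.Agent.Helper55.BLE.FinalN
import Pool.Agent.Gold.W.Base
import Pool.Agent.Gold.W.Inst
import Pool.Agent.Gold.Split

/-!
Positivity of the chromatic polynomial at `1 + y`, when a graph of heights exists for `y`, for
planar graphs with a connected set `T` of special vertices, one further special vertex `t` at an
arbitrary place, and an ordered set of hubs.
-/

set_option autoImplicit false

namespace Pool.Agent.Helper55.BLE.W

open Pool.Agent.Helper70.BLB Polynomial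
open Pool.Agent.Helper55.BLD
open Pool.Agent.Gold

theorem LG_mono {V : Type} {G G' : SimpleGraph V} (h : G' ≤ G) {r : V} {K R : ℕ}
    {L : ℕ → ℕ → Option V} (M : LG G r K R L) : LG G' r K R L :=
  ⟨M.col, M.row, M.conn, fun u v huv => M.edge u v (h huv)⟩

/-- Without hubs. -/
theorem base_posS {V : Type} [Fintype V] [DecidableEq V] {G : SimpleGraph V} {r : V}
    {T : Finset V} (hr : r ∈ T) {K R : ℕ} {L : ℕ → ℕ → Option V} (M : LG G r K R L)
    (hct : ContT T r K R L) {t : V} {cl : V → Bool}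
    (hcl : ∀ u v, u ∉ insert t T → v ∉ insert t T → G.Adj u v → cl u ≠ cl v) {n : ℕ} (hn : 1 ≤ n)
    (hT : T.card ≤ n) {y : ℝ} (hH : Heights (Fin n) y) (hy : (n : ℝ) - 1 < y) (p : ℝ[X])
    (hp : ∀ N : ℕ, p.eval (N : ℝ) = nc G N) : 0 < p.eval (1 + y) := by
  have hy0 : 0 < y := by
    have : (1 : ℝ) ≤ n := by exact_mod_cast hn
    linarith
  choose P hP using fun I : Finset V => exists_chrom (isoS G I)
  have key : ∀ I : Finset V, t ∈ I → 0 < (P I).eval y := by
    intro I hI
    refine base_posT hr (LG_mono (isoS_le G I) M) hct (cl := cl) ?_ hn hT hH hy (P I) (hP I)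
    intro u v hu hv huv
    obtain ⟨h1, h2, h3⟩ := huv
    refine hcl u v ?_ ?_ h1
    · rw [Finset.mem_insert]
      rintro (h | h)
      · exact h2 (h ▸ hI)
      · exact hu h
    · rw [Finset.mem_insert]
      rintro (h | h)
      · exact h3 (h ▸ hI)
      · exact hv h
  exact split_pos G t hy0 P hP (fun I hI _ => (key I hI).le)
    (key {t} (Finset.mem_singleton_self t)) p hp

/-- Orientation of a pair to be merged. -/
theorem orient {V : Type} [DecidableEq V] {T : Finset V} {r t a c : V} (hr : r ∈ T) (hac : a ≠ c)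
    {cl : V → Bool} (h : a ∉ insert t T → c ∉ insert t T → cl a = cl c) :
    (c ≠ r ∧ (c ∈ T → a ∈ T) ∧ (c ∈ insert t T → a ∈ insert t T) ∧
      (a ∉ insert t T → cl a = cl c)) ∨
    (a ≠ r ∧ (a ∈ T → c ∈ T) ∧ (a ∈ insert t T → c ∈ insert t T) ∧
      (c ∉ insert t T → cl c = cl a)) := by
  by_cases h1 : a = r
  · subst h1
    left
    exact ⟨hac.symm, fun _ => hr, fun _ => Finset.mem_insert_of_mem hr,
      fun h2 => absurd (Finset.mem_insert_of_mem hr) h2⟩
  by_cases h2 : c = r
  · subst h2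
    right
    exact ⟨hac, fun _ => hr, fun _ => Finset.mem_insert_of_mem hr,
      fun h2 => absurd (Finset.mem_insert_of_mem hr) h2⟩
  by_cases ha : a ∈ T
  · left
    exact ⟨h2, fun _ => ha, fun _ => Finset.mem_insert_of_mem ha,
      fun h3 => absurd (Finset.mem_insert_of_mem ha) h3⟩
  by_cases hc : c ∈ T
  · right
    exact ⟨h1, fun _ => hc, fun _ => Finset.mem_insert_of_mem hc,
      fun h3 => absurd (Finset.mem_insert_of_mem hc) h3⟩
  by_cases ha' : a ∈ insert t T
  · left
    exact ⟨h2, fun h3 => absurd h3 hc, fun _ => ha', fun h3 => absurd ha' h3⟩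
  by_cases hc' : c ∈ insert t T
  · right
    exact ⟨h1, fun h3 => absurd h3 ha, fun _ => hc', fun h3 => absurd hc' h3⟩
  · left
    exact ⟨h2, fun h3 => absurd h3 hc, fun h3 => absurd h3 hc', fun _ => h ha' hc'⟩

/-- Positivity with hubs. -/
theorem hub_posS {V : Type} [DecidableEq V] [Fintype V] {m : ℕ} (hm : 1 ≤ m) {y : ℝ}
    (hy3 : 3 < y) (hH : Heights (Fin m) y) (hy : (m : ℝ) - 1 < y) {r : V} (ρ : V → ℕ)
    (cl : V → Bool) :
    ∀ (n : ℕ) (C : Set V), C.ncard = n → ∀ (T : Finset V) (t : V), r ∈ T → T.card ≤ m →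
      ∀ (G : SimpleGraph V) (K R : ℕ) (L : ℕ → ℕ → Option V), LG G r K R L → ContT T r K R L →
      HubsN G (insert t T) C ρ cl →
      ∀ p : ℝ[X], (∀ N : ℕ, p.eval (N : ℝ) = nc G N) → 0 < p.eval (1 + y) := by
  classical
  intro n
  induction n with
  | zero =>
    intro C hC T t hr hT G K R L M hct H p hp
    rw [Set.ncard_eq_zero] at hC
    subst hC
    exact base_posS hr M hct (fun u v h1 h2 h3 =>
      H.cl2 u v (Set.notMem_empty _) (Set.notMem_empty _) h1 h2 h3) hm hT hH hy p hp
  | succ n IH =>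
    intro C hC T t hr hT G K R L M hct H p hp
    obtain ⟨v, hv, hmin⟩ : ∃ v ∈ C, ∀ w ∈ C, ρ v ≤ ρ w := by
      have hne : C.toFinset.Nonempty := by
        rw [Set.toFinset_nonempty]
        rw [Set.nonempty_iff_ne_empty]
        intro h
        rw [h, Set.ncard_empty] at hC
        omega
      obtain ⟨v, hv, h⟩ := Finset.exists_min_image C.toFinset ρ hne
      exact ⟨v, Set.mem_toFinset.1 hv, fun w hw => h w (Set.mem_toFinset.2 hw)⟩
    have hcard : (C \ {v}).ncard = n := by
      rw [Set.ncard_sdiff_singleton_of_mem hv, hC]; omega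
    have hvT' := H.ns v hv
    have hvT : v ∉ T := fun hh => hvT' (Finset.mem_insert_of_mem hh)
    have hvr : v ≠ r := fun hh => hvT (hh ▸ hr)
    have H1 := H.iso hv hmin
    obtain ⟨L1, M1, hct1⟩ := isoT M hct hvr hvT
    obtain ⟨p1, hpp1⟩ := exists_chrom (isoV G v)
    have q1 := IH (C \ {v}) hcard T t hr hT (isoV G v) K R L1 M1 hct1 H1 p1 hpp1
    -- the neighbourhood of `v`
    have hup : ∀ w, w ∈ upN G C ρ v ↔ G.Adj v w := by
      intro w
      constructor
      · exact fun h => h.1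
      · intro h
        refine ⟨h, fun hw => ?_⟩
        have h1 := hmin w hw
        have h2 : ρ v ≠ ρ w := fun hh => h.ne (H.inj hv hw hh)
        omega
    set S : Finset V := (Set.toFinite (upN G C ρ v)).toFinset with hS
    have hSmem : ∀ w, w ∈ S ↔ w ∈ upN G C ρ v := fun w => by
      rw [hS, Set.Finite.mem_toFinset]
    have hN : ∀ w, G.Adj v w ↔ w ∈ S := fun w => by rw [hSmem, hup]
    have hScard : S.card ≤ 4 := by
      rw [hS, ← Set.ncard_eq_toFinset_card]
      exact H.card v hv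
    -- one pair, oriented
    have pair1 : ∀ a c : V, G.Adj v a → G.Adj v c → a ≠ c → ¬ G.Adj a c → a ∉ C → c ∉ C →
        c ≠ r → (c ∈ T → a ∈ T) → (c ∈ insert t T → a ∈ insert t T) →
        (a ∉ insert t T → cl a = cl c) →
        ∀ p2 : ℝ[X], (∀ N : ℕ, p2.eval (N : ℝ) = nc (mergeV (isoV G v) a c) N) →
          0 < p2.eval (1 + y) := by
      intro a c hva hvc h1 h2 haC hcC h3 h4 h4' h5 p2 hpp2
      obtain ⟨L2, M2, hct2⟩ := mergeT M hct hvr hvT h3 h1 hva hvc
      have haC' : a ∉ C \ {v} := fun hh => haC hh.1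
      have hcC' : c ∉ C \ {v} := fun hh => hcC hh.1
      have H2 := H1.merge haC' hcC' h1 (fun hh => h2 hh.1) h4' h5
      have hins : ∃ t' : V, insert t' (T.erase c) = (insert t T).erase c := by
        by_cases hct : c = t
        · subst hct
          have haT : a ∈ T := by
            rcases Finset.mem_insert.1 (h4' (Finset.mem_insert_self c T)) with h | h
            · exact absurd h h1
            · exact h
          refine ⟨a, ?_⟩
          ext w
          simp only [Finset.mem_insert, Finset.mem_erase]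
          constructor
          · rintro (h | ⟨h6, h7⟩)
            · exact ⟨h ▸ h1, Or.inr (h ▸ haT)⟩
            · exact ⟨h6, Or.inr h7⟩
          · rintro ⟨h6, h | h⟩
            · exact absurd h h6
            · exact Or.inr ⟨h6, h⟩
        · refine ⟨t, ?_⟩
          ext w
          simp only [Finset.mem_insert, Finset.mem_erase]
          constructor
          · rintro (h | ⟨h6, h7⟩)
            · exact ⟨h ▸ (fun hh => hct hh.symm), Or.inl h⟩
            · exact ⟨h6, Or.inr h7⟩
          · rintro ⟨h6, h | h⟩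
            · exact Or.inl h
            · exact Or.inr ⟨h6, h⟩
      obtain ⟨t', ht'⟩ := hins
      rw [← ht'] at H2
      exact IH (C \ {v}) hcard (T.erase c) t'
        (Finset.mem_erase.2 ⟨fun hh => h3 hh.symm, hr⟩)
        ((Finset.card_erase_le).trans hT) _ K R L2 M2 hct2 H2 p2 hpp2
    -- all pairs
    have pair : ∀ p ∈ S.offDiag, ∃ p2 : ℝ[X], (∀ N : ℕ, p2.eval (N : ℝ) =
          if G.Adj p.1 p.2 then 0 else nc (mergeV (isoV G v) p.1 p.2) N) ∧
          0 ≤ p2.eval (1 + y) := by
      rintro ⟨a, c⟩ hp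
      obtain ⟨ha, hc, h1⟩ := Finset.mem_offDiag.1 hp
      simp only at ha hc h1 ⊢
      have hva := (hN a).2 ha
      have hvc := (hN c).2 hc
      by_cases h2 : G.Adj a c
      · exact ⟨0, fun N => by rw [if_pos h2, eval_zero], by rw [eval_zero]⟩
      · obtain ⟨p2, hpp2⟩ := exists_chrom (mergeV (isoV G v) a c)
        refine ⟨p2, fun N => by rw [if_neg h2]; exact hpp2 N, ?_⟩
        rcases H.opp v hv a ((hSmem a).1 ha) c ((hSmem c).1 hc) h1 with h | ⟨haC, hcC, hcl⟩
        · exact absurd h h2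
        have hn1 : ¬ (isoV G v).Adj a c := fun hh => h2 hh.1
        rcases orient hr h1 hcl with ⟨h3, h4, h4', h5⟩ | ⟨h3, h4, h4', h5⟩
        · exact (pair1 a c hva hvc h1 h2 haC hcC h3 h4 h4' h5 p2 hpp2).le
        · refine (pair1 c a hvc hva h1.symm (fun hh => h2 hh.symm) hcC haC h3 h4 h4' h5 p2
            (fun N => ?_)).le
          rw [hpp2 N]
          exact mergeV_swap_eval h1 hn1 N
    choose! P2 hP2 hP2q using pair
    have key : Polynomial.C 2 * X ^ 2 * p =
        Polynomial.C 2 * X * (X - Polynomial.C (S.card : ℝ)) * p1 + ∑ z ∈ S.offDiag, P2 z := by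
      apply Polynomial.eq_of_infinite_eval_eq
      apply Set.Infinite.mono (s := Set.range (fun n : ℕ => (n : ℝ)))
      · rintro _ ⟨N, rfl⟩
        show eval (N : ℝ) _ = eval (N : ℝ) _
        have h := nc_hubN (G := G) S hN (fun a ha b hb c hc => H.tri v hv a ((hSmem a).1 ha) b
          ((hSmem b).1 hb) c ((hSmem c).1 hc)) N
        simp only [eval_mul, eval_pow, eval_X, eval_add, eval_sub, eval_C, eval_finsetSum]
        rw [hp N, hpp1, Finset.sum_congr rfl (fun z hz => hP2 z hz N)]
        exact h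
      · exact Set.infinite_range_of_injective Nat.cast_injective
    have h6 := congrArg (fun P : ℝ[X] => P.eval (1 + y)) key
    simp only [eval_mul, eval_pow, eval_X, eval_add, eval_sub, eval_C, eval_finsetSum] at h6
    have hq0 : 0 < 1 + y := by linarith
    have hS4 : (S.card : ℝ) ≤ 4 := by exact_mod_cast hScard
    have hq4' : 0 < 1 + y - S.card := by linarith
    have h7 : 0 < 2 * (1 + y) * (1 + y - S.card) * p1.eval (1 + y) := by positivity
    have h9 : 0 ≤ ∑ z ∈ S.offDiag, (P2 z).eval (1 + y) :=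
      Finset.sum_nonneg (fun z hz => hP2q z hz)
    have h8 : 0 < 2 * (1 + y) ^ 2 * p.eval (1 + y) := by rw [h6]; linarith
    exact (pos_iff_pos_of_mul_pos h8).1 (by positivity)

/-- Subgraphs of drawn graphs: a connected set `T` of at most `m` special vertices, `m ≤ 2`, one
further special vertex `t`, and an ordered set of hubs. -/
theorem hubsS_pos {V : Type} [Fintype V] [DecidableEq V] {G H : SimpleGraph V} {f : V → ℝ × ℝ}
    {γ : V → V → ℝ → ℝ × ℝ} (D : Drawing H f γ) (hGH : G ≤ H) {m : ℕ} (hm : 1 ≤ m) (hm2 : m ≤ 2)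
    {y : ℝ} (hy3 : 3 < y) (hHt : Heights (Fin m) y) (T : Finset V) (hTm : T.card ≤ m)
    (hT : (H.induce (T : Set V)).Preconnected) (t : V) (C : Set V) (ρ : V → ℕ) (κ : V → Bool)
    (hH : HubsN G (insert t T) C ρ κ) (p : ℝ[X])
    (hp : ∀ n : ℕ, p.eval (n : ℝ) = (Nat.card (G.Coloring (Fin n)) : ℝ)) :
    0 < p.eval (1 + y) := by
  rcases T.eq_empty_or_nonempty with h0 | hne
  · subst h0
    have hsing : (H.induce ((insert t (∅ : Finset V) : Finset V) : Set V)).Preconnected := by
      intro a b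
      have ha : a = b := by
        apply Subtype.ext
        have h1 := a.2
        have h2 := b.2
        simp only [insert_empty_eq, Finset.coe_singleton, Set.mem_singleton_iff] at h1 h2
        rw [h1, h2]
      rw [ha]
    exact hubsN_pos D hGH _ hsing C ρ κ hH (by linarith)
      (Or.inl (by rw [insert_empty_eq, Finset.card_singleton]; norm_num)) p hp
  · obtain ⟨r, hr, hadj⟩ := exists_centre hT hne (by omega)
    obtain ⟨K, R, L, M, hct⟩ := exists_LG_star D hGH r T (by omega) hr hadj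
    have hm' : (m : ℝ) ≤ 2 := by exact_mod_cast hm2
    exact hub_posS hm hy3 hHt (by linarith) ρ κ _ C rfl T t hr hTm G K R L M hct hH p hp

theorem cos_sq_lt {n : ℕ} (hn : 7 ≤ n) : 3 < 4 * Real.cos (Real.pi / n) ^ 2 := by
  have hπ := Real.pi_pos
  have hn' : (7 : ℝ) ≤ n := by exact_mod_cast hn
  have h1 : Real.pi / n < Real.pi / 6 := by
    apply div_lt_div_of_pos_left hπ (by norm_num) (by linarith)
  have h2 : Real.cos (Real.pi / 6) < Real.cos (Real.pi / n) := by
    apply Real.cos_lt_cos_of_nonneg_of_le_pi _ _ h1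
    · positivity
    · linarith
  rw [Real.cos_pi_div_six] at h2
  have h3 : (0 : ℝ) ≤ Real.sqrt 3 / 2 := by positivity
  have h4 : (Real.sqrt 3 / 2) ^ 2 < Real.cos (Real.pi / n) ^ 2 := by
    apply pow_lt_pow_left₀ h2 h3 (by norm_num)
  rw [div_pow, Real.sq_sqrt (by norm_num)] at h4
  linarith

/-- The main theorem with transversals. -/
theorem transversal_pos {V : Type} [Fintype V] [DecidableEq V] {G H : SimpleGraph V}
    {f : V → ℝ × ℝ} {γ : V → V → ℝ → ℝ × ℝ} (D : Drawing H f γ) (hGH : G ≤ H) (T : Finset V)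
    (hT : (H.induce (T : Set V)).Preconnected) (t : V) (C : Set V) (ρ : V → ℕ) (κ : V → Bool)
    (hH : HubsN G (insert t T) C ρ κ) {n : ℕ} (hn : 7 ≤ n)
    (hTn : T.card ≤ 1 ∨ (T.card ≤ 2 ∧ Even n)) (p : ℝ[X])
    (hp : ∀ n : ℕ, p.eval (n : ℝ) = (Nat.card (G.Coloring (Fin n)) : ℝ)) :
    0 < p.eval (1 + 4 * Real.cos (Real.pi / n) ^ 2) := by
  rcases hTn with h | ⟨h, h2⟩
  · exact hubsS_pos D hGH le_rfl (by norm_num) (cos_sq_lt hn)
      (heights_A (by simp) (by omega)) T h hT t C ρ κ hH p hp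
  · obtain ⟨k, rfl⟩ := h2
    obtain ⟨M, rfl⟩ : ∃ M, k = M + 1 := ⟨k - 1, by omega⟩
    have e : M + 1 + (M + 1) = 2 * M + 2 := by ring
    rw [e] at hn ⊢
    exact hubsS_pos D hGH (by norm_num) le_rfl (cos_sq_lt hn)
      (heights_D (by simp) (by omega)) T h hT t C ρ κ hH p hp

end Pool.Agent.Helper55.BLE.W
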